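import Pool.Agent.TH144.NV.Avg

/-!
# The averaged inequality with rational weights
-/

set_option autoImplicit false

namespace Pool.Agent.Q2.TF

open Finset Pool.Agent.TH144.NV

theorem exists_common_den {τ : Type} [Fintype τ] (β : τ → ℚ) (hβ : ∀ j, 0 ≤ β j) :
    ∃ (M : ℕ) (n : τ → ℕ), 0 < M ∧ ∀ j, (n j : ℚ) = M * β j := by
  classical
  refine ⟨∏ j, (β j).den, fun j => (∏ i ∈ univ.erase j, (β i).den) * (β j).num.toNat,
    Finset.prod_pos fun j _ => (β j).den_pos, fun j => ?_⟩
  have h1 : (((β j).num.toNat : ℕ) : ℚ) = (β j).num := by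
    have h2 : (((β j).num.toNat : ℕ) : ℤ) = (β j).num := Int.toNat_of_nonneg (Rat.num_nonneg.2 (hβ j))
    exact_mod_cast h2
  have h3 : ((β j).den : ℚ) * β j = (β j).num := by
    rw [mul_comm]
    exact Rat.mul_den_eq_num (β j)
  rw [Nat.cast_mul, h1, ← Finset.mul_prod_erase univ _ (mem_univ j), Nat.cast_mul, ← h3]
  ring

variable {k : Type} [Field k] [IsAlgClosed k] [CharZero k] {G : Type} [Group G] [Finite G]

open Classical in
theorem main_ineq_rat {σ τ : Type} [Fintype σ] [Fintype τ] (w : σ → ℕ) (hw : ∀ i, 0 < w i)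
    (d : τ → ℕ) (hd : ∀ j, 0 < d j) (α : σ → G →* kˣ) (χ : τ → G →* kˣ) (h : ℕ)
    (β : τ → ℚ) (hβ : ∀ j, 0 ≤ β j)
    (H : ∀ (g : G) (μ : kˣ), μ ^ h ≠ 1 →
      ((univ.filter fun i => α i g = μ ^ w i).card : ℚ)
        ≤ ∑ j ∈ univ.filter (fun j => χ j g = μ ^ d j), β j) :
    ∑ i ∈ univ.filter (fun i => ¬ Good h (w i) (α i)), (w i : ℚ) ≤ ∑ j, β j * d j := by
  obtain ⟨M, n, hM, hn⟩ := exists_common_den β hβ
  have main := main_ineq (k := k) (G := G) (fun x : Fin M × σ => w x.2) (fun x => hw x.2)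
    (fun x : (Σ j : τ, Fin (n j)) => d x.1) (fun x => hd _) (fun x => α x.2) (fun x => χ x.1) h (by
    intro g μ hμ
    have h1 := H g μ hμ
    have e1 : (univ.filter fun x : Fin M × σ => α x.2 g = μ ^ w x.2).card
        = M * (univ.filter fun i => α i g = μ ^ w i).card := by
      have : (univ.filter fun x : Fin M × σ => α x.2 g = μ ^ w x.2)
          = (univ : Finset (Fin M)) ×ˢ (univ.filter fun i => α i g = μ ^ w i) := by
        ext x
        simp
      rw [this, Finset.card_product, Finset.card_univ, Fintype.card_fin]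
    have e2 : (univ.filter fun x : (Σ j : τ, Fin (n j)) => χ x.1 g = μ ^ d x.1).card
        = ∑ j ∈ univ.filter (fun j => χ j g = μ ^ d j), n j := by
      have : (univ.filter fun x : (Σ j : τ, Fin (n j)) => χ x.1 g = μ ^ d x.1)
          = (univ.filter fun j => χ j g = μ ^ d j).sigma (fun j => (univ : Finset (Fin (n j)))) := by
        ext x
        simp
      rw [this, Finset.card_sigma]
      exact Finset.sum_congr rfl fun j _ => by rw [Finset.card_univ, Fintype.card_fin]
    rw [e1, e2]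
    have h2 : ((M * (univ.filter fun i => α i g = μ ^ w i).card : ℕ) : ℚ)
        ≤ ((∑ j ∈ univ.filter (fun j => χ j g = μ ^ d j), n j : ℕ) : ℚ) := by
      push_cast
      simp only [hn]
      rw [← Finset.mul_sum]
      exact mul_le_mul_of_nonneg_left h1 (Nat.cast_nonneg M)
    exact_mod_cast h2)
  have h1 : ∑ x ∈ univ.filter (fun x : Fin M × σ => ¬ Good h (w x.2) (α x.2)), w x.2
      = M * ∑ i ∈ univ.filter (fun i => ¬ Good h (w i) (α i)), w i := by
    have : (univ.filter fun x : Fin M × σ => ¬ Good h (w x.2) (α x.2))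
        = (univ : Finset (Fin M)) ×ˢ univ.filter (fun i => ¬ Good h (w i) (α i)) := by
      ext x
      simp
    rw [this, Finset.sum_product]
    simp
  have h2 : ∑ x ∈ univ.filter (fun x : (Σ j : τ, Fin (n j)) => ¬ Good h (d x.1) (χ x.1)), d x.1
      ≤ ∑ x : (Σ j : τ, Fin (n j)), d x.1 :=
    Finset.sum_le_sum_of_subset (Finset.filter_subset _ _)
  have h3 : ∑ x : (Σ j : τ, Fin (n j)), d x.1 = ∑ j, n j * d j := by
    rw [Fintype.sum_sigma]
    simp
  have h4 : M * ∑ i ∈ univ.filter (fun i => ¬ Good h (w i) (α i)), w i ≤ ∑ j, n j * d j := by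
    rw [← h1, ← h3]
    exact le_trans (by convert main) h2
  have h5 : (M : ℚ) * ∑ i ∈ univ.filter (fun i => ¬ Good h (w i) (α i)), (w i : ℚ)
      ≤ M * ∑ j, β j * d j := by
    have h6 : ((M * ∑ i ∈ univ.filter (fun i => ¬ Good h (w i) (α i)), w i : ℕ) : ℚ)
        ≤ ((∑ j, n j * d j : ℕ) : ℚ) := by exact_mod_cast h4
    push_cast at h6
    simp only [hn, mul_assoc] at h6
    rw [← Finset.mul_sum] at h6
    exact h6
  exact le_of_mul_le_mul_left h5 (by exact_mod_cast hM)

end Pool.Agent.Q2.TF
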