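import Pool.Agent.Q2.TF.Lift

/-!
# Toric formats: a lift with many trivial coordinates
-/

set_option autoImplicit false

namespace Pool.Agent.Q2.TF

open Finset
open scoped Matrix

variable {k : Type} [Field k] {r : ℕ} {m : Matrix (Fin r) (Fin r) ℤ}

theorem finite_pow_eq {n : ℕ} (hn : 0 < n) (a : kˣ) : {x : kˣ | x ^ n = a}.Finite := by
  classical
  refine ((Polynomial.nthRoots n (a : k)).toFinset.finite_toSet.preimage
    Units.val_injective.injOn).subset ?_
  intro x hx
  rw [Set.mem_preimage, mem_coe, Multiset.mem_toFinset, Polynomial.mem_nthRoots hn]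
  have hx' : x ^ n = a := hx
  rw [← hx', Units.val_pow_eq_pow_val]

theorem lift_pow {z ζ : Fin r → kˣ} (h : IsLift m z ζ) (i : Fin r) :
    ζ i ^ m.det = chr z (fun j => m.adjugate j i) := by
  rw [chr_eq h, Finset.prod_eq_single i]
  · congr 1
    have h1 := congrFun (congrFun (Matrix.mul_adjugate m) i) i
    rw [Matrix.mul_apply] at h1
    simp only [Matrix.smul_apply, Matrix.one_apply_eq, smul_eq_mul, mul_one] at h1
    rw [← h1]
    exact Finset.sum_congr rfl fun j _ => mul_comm _ _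
  · intro j _ hj
    have h1 := congrFun (congrFun (Matrix.mul_adjugate m) j) i
    rw [Matrix.mul_apply] at h1
    simp only [Matrix.smul_apply, Matrix.one_apply_ne hj, smul_zero] at h1
    have h2 : (fun j' => m.adjugate j' i) ⬝ᵥ m j = 0 := by
      rw [← h1]
      exact Finset.sum_congr rfl fun j _ => mul_comm _ _
    rw [h2, zpow_zero]
  · intro h0
    exact absurd (mem_univ i) h0

theorem finite_lifts (hdet : m.det ≠ 0) (z : Fin r → kˣ) :
    {ζ : Fin r → kˣ | IsLift m z ζ}.Finite := by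
  have h1 : ∀ i, {x : kˣ | x ^ m.det = chr z (fun j => m.adjugate j i)}.Finite := by
    intro i
    rcases Int.natAbs_eq m.det with h | h
    · refine (finite_pow_eq (Int.natAbs_pos.2 hdet) (chr z (fun j => m.adjugate j i))).subset ?_
      intro x hx
      have hx' : x ^ m.det = _ := hx
      rw [h, zpow_natCast] at hx'
      exact hx'
    · refine (finite_pow_eq (Int.natAbs_pos.2 hdet) (chr z (fun j => m.adjugate j i))⁻¹).subset ?_
      intro x hx
      have hx' : x ^ m.det = _ := hx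
      rw [h, zpow_neg, zpow_natCast] at hx'
      show x ^ _ = _
      rw [← hx', inv_inv]
  refine (Set.Finite.pi' h1).subset ?_
  intro ζ hζ i
  exact lift_pow hζ i

theorem IsLift.mul_div {z ζ ζ₀ ζ₁ : Fin r → kˣ} (h : IsLift m z ζ) (h₀ : IsLift m z ζ₀)
    (h₁ : IsLift m z ζ₁) : IsLift m z (fun i => ζ i * (ζ₁ i * (ζ₀ i)⁻¹)) := by
  intro j
  have h2 : ∏ i, (ζ i * (ζ₁ i * (ζ₀ i)⁻¹)) ^ m i j
      = (∏ i, ζ i ^ m i j) * ((∏ i, ζ₁ i ^ m i j) * (∏ i, ζ₀ i ^ m i j)⁻¹) := by
    rw [← Finset.prod_inv_distrib, ← Finset.prod_mul_distrib, ← Finset.prod_mul_distrib]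
    exact Finset.prod_congr rfl fun i _ => by rw [mul_zpow, mul_zpow, inv_zpow]
  rw [h2, h j, h₀ j, h₁ j, mul_inv_cancel, mul_one]

open Classical in
/-- **A lift with many trivial coordinates.** -/
theorem exists_face [IsAlgClosed k] [CharZero k] (hdet : m.det ≠ 0) (z : Fin r → kˣ)
    (S : Finset (Fin r)) (b : Fin r → Fin r → ℤ) (hp : ∀ i ∈ S, Primitive (b i))
    (hb : ∀ i ∈ S, ∀ j, j ≠ i → b i ⬝ᵥ m j = 0) (hpos : ∀ i ∈ S, 0 < b i ⬝ᵥ m i) :
    ∃ I ⊆ S, (∑ i ∈ S, if chr z (b i) = 1 then (1 : ℚ) / ((b i ⬝ᵥ m i : ℤ) : ℚ) else 0) ≤ I.card ∧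
      ∀ v : Fin r → ℤ, (∀ j, j ∉ I → v ⬝ᵥ m j = 0) → chr z v = 1 := by
  set L := (finite_lifts hdet z).toFinset with hL
  have memL : ∀ ζ, ζ ∈ L ↔ IsLift m z ζ := fun ζ => by rw [hL, Set.Finite.mem_toFinset]; rfl
  rcases L.eq_empty_or_nonempty with h0 | hne
  · refine ⟨∅, empty_subset _, ?_, ?_⟩
    · rw [Finset.sum_eq_zero]
      · simp
      intro i hi
      rw [if_neg]
      intro h1
      obtain ⟨ζ, hζ, -⟩ := exists_lift hdet (hp i hi) (hb i hi) z h1
      rw [← memL, h0] at hζ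
      exact absurd hζ (notMem_empty _)
    · intro v hv
      have : v = 0 := eq_zero_of_dot hdet fun i => hv i (notMem_empty _)
      rw [this, chr_zero]
  · -- the fibres
    have fib : ∀ i ∈ S, (if chr z (b i) = 1 then (1 : ℚ) / ((b i ⬝ᵥ m i : ℤ) : ℚ) else 0) * L.card
        ≤ (L.filter fun ζ => ζ i = 1).card := by
      intro i hi
      split_ifs with h1
      swap
      · rw [zero_mul]; positivity
      obtain ⟨e, he⟩ : ∃ e : ℕ, b i ⬝ᵥ m i = e := Int.eq_ofNat_of_zero_le (hpos i hi).le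
      have he0 : 0 < e := by have := hpos i hi; omega
      obtain ⟨ζ₁, hζ₁, hζ₁i⟩ := exists_lift hdet (hp i hi) (hb i hi) z h1
      have hpow : ∀ ζ ∈ L, ζ i ^ e = 1 := by
        intro ζ hζ
        have h2 := chr_eq ((memL ζ).1 hζ) (b i)
        rw [h1, Finset.prod_eq_single i, he, zpow_natCast] at h2
        · exact h2.symm
        · intro j _ hj
          rw [hb i hi j hj, zpow_zero]
        · intro h0
          exact absurd (mem_univ i) h0
      have h2 : L.card ≤ (L.filter fun ζ => ζ i = 1).card * (L.image fun ζ => ζ i).card := by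
        refine Finset.card_le_mul_card_image _ _ ?_
        intro x hx
        obtain ⟨ζ₀, hζ₀, hx0⟩ := Finset.mem_image.1 hx
        refine Finset.card_le_card_of_injOn (fun ζ => fun i => ζ i * (ζ₁ i * (ζ₀ i)⁻¹)) ?_ ?_
        · intro ζ hζ
          have hζ' := Finset.mem_filter.1 hζ
          have h3 : (fun i => ζ i * (ζ₁ i * (ζ₀ i)⁻¹)) ∈ L.filter fun ζ => ζ i = 1 := by
            rw [Finset.mem_filter, memL]
            refine ⟨((memL ζ).1 hζ'.1).mul_div ((memL ζ₀).1 hζ₀) hζ₁, ?_⟩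
            show ζ i * (ζ₁ i * (ζ₀ i)⁻¹) = 1
            rw [hζ₁i, one_mul, hζ'.2, ← hx0, mul_inv_cancel]
          exact h3
        · intro ζ _ ζ' _ h
          funext j
          exact mul_right_cancel (congrFun h j)
      have h3 : (L.image fun ζ => ζ i).card ≤ e := by
        refine le_trans (Finset.card_le_card_of_injOn (t := (Polynomial.nthRoots e (1 : k)).toFinset)
          Units.val ?_ Units.val_injective.injOn) ?_
        · intro x hx
          obtain ⟨ζ, hζ, rfl⟩ := Finset.mem_image.1 hx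
          rw [mem_coe, Multiset.mem_toFinset, Polynomial.mem_nthRoots he0]
          rw [← Units.val_pow_eq_pow_val, hpow ζ hζ, Units.val_one]
        · exact le_trans (Multiset.toFinset_card_le _) (Polynomial.card_nthRoots e 1)
      have h4 : L.card ≤ (L.filter fun ζ => ζ i = 1).card * e :=
        le_trans h2 (Nat.mul_le_mul_left _ h3)
      rw [he, div_mul_eq_mul_div, one_mul, div_le_iff₀ (by exact_mod_cast he0)]
      exact_mod_cast h4
    have hsum : ∑ ζ ∈ L, (∑ i ∈ S, if chr z (b i) = 1 then (1 : ℚ) / ((b i ⬝ᵥ m i : ℤ) : ℚ) else 0)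
        ≤ ∑ ζ ∈ L, ((S.filter fun i => ζ i = 1).card : ℚ) := by
      rw [Finset.sum_const, nsmul_eq_mul, mul_comm, Finset.sum_mul]
      refine le_trans (Finset.sum_le_sum fib) ?_
      have h5 : ∑ i ∈ S, (L.filter fun ζ => ζ i = 1).card = ∑ ζ ∈ L, (S.filter fun i => ζ i = 1).card := by
        simp only [Finset.card_filter]
        exact Finset.sum_comm
      exact_mod_cast h5.le
    obtain ⟨ζ, hζ, hle⟩ := Finset.exists_le_of_sum_le hne hsum
    refine ⟨S.filter fun i => ζ i = 1, Finset.filter_subset _ _, hle, ?_⟩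
    intro v hv
    rw [chr_eq ((memL ζ).1 hζ)]
    refine Finset.prod_eq_one fun j _ => ?_
    by_cases hj : j ∈ S.filter fun i => ζ i = 1
    · rw [(Finset.mem_filter.1 hj).2, one_zpow]
    · rw [hv j hj, zpow_zero]

end Pool.Agent.Q2.TF
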