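import Pool.Agent.Q35.PX.Cnt

/-!
# General formats: the count of the fixed coordinates
-/

set_option autoImplicit false

namespace Pool.Agent.Q2.TF

open Finset MvPolynomial Pool.Agent.Q35.PX

variable {k : Type} [Field k]

open Classical in
/-- the coordinates in `A`, the others replaced by zero -/
noncomputable def cut {ι : Type} (A : Finset ι) : ι → MvPolynomial {i // i ∈ A} k :=
  fun i => if h : i ∈ A then X ⟨i, h⟩ else 0

theorem cut_hom {ι : Type} [Fintype ι] (A : Finset ι) {w : ι → ℕ} {a : MvPolynomial ι k} {m : ℕ}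
    (ha : IsWeightedHomogeneous w a m) :
    IsWeightedHomogeneous (fun i : {i // i ∈ A} => w i.1) (aeval (cut (k := k) A) a) m := by
  classical
  rw [a.as_sum, map_sum]
  refine IsWeightedHomogeneous.sum _ _ _ (fun d hd => ?_)
  have h1 : Finsupp.weight w d = m := ha (mem_support_iff.1 hd)
  have h2 : aeval (cut (k := k) A) (monomial d (coeff d a)) = C (coeff d a) *
      ∏ i ∈ d.support, (cut (k := k) A i) ^ d i := by
    rw [aeval_monomial]
    rfl
  rw [h2, ← h1]
  have h3 : Finsupp.weight w d = 0 + ∑ i ∈ d.support, d i • w i := by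
    rw [zero_add, Finsupp.weight_apply]
    rfl
  rw [h3]
  refine (isWeightedHomogeneous_C _ _).mul ?_
  refine IsWeightedHomogeneous.prod _ _ _ (fun i _ => ?_)
  unfold cut
  split_ifs with h
  · exact (isWeightedHomogeneous_X k (fun i : {i // i ∈ A} => w i.1) ⟨i, h⟩).pow (d i)
  · rcases Nat.eq_zero_or_pos (d i) with h4 | h4
    · rw [h4, pow_zero, zero_smul]
      exact isWeightedHomogeneous_one _ _
    · rw [zero_pow h4.ne']
      exact isWeightedHomogeneous_zero _ _ _

/-- evaluation of the restricted equations -/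
theorem aeval_cut {ι : Type} (A : Finset ι) {R : Type} [CommRing R] [Algebra k R] (y : ι → R)
    (hy : ∀ i, i ∉ A → y i = 0) (a : MvPolynomial ι k) :
    aeval (fun i : {i // i ∈ A} => y i.1) (aeval (cut (k := k) A) a) = aeval y a := by
  induction a using MvPolynomial.induction_on with
  | C c => rw [aeval_C, aeval_C, MvPolynomial.algebraMap_eq, aeval_C]
  | add a b ha hb => rw [map_add, map_add, map_add, ha, hb]
  | mul_X a i ha =>
    rw [map_mul, map_mul, map_mul, ha, aeval_X, aeval_X]
    congr 1
    unfold cut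
    split_ifs with h
    · rw [aeval_X]
    · rw [map_zero, hy i h]

/-- **The count.** `f` is a homogeneous map to the affine space with the coordinates `ι`, `H` are
homogeneous equations of a cone in it and `y` a point of this cone over an extension field with
support in `A`. -/
theorem count_gen (hDim : S_Dim) [IsAlgClosed k] {N : ℕ} {ι Λ κ : Type} [Fintype ι] [Fintype κ]
    {w : Fin N → ℕ} (hw : ∀ i, 0 < w i) (d : ι → ℕ) (hd : ∀ i, 0 < d i)
    (f : ι → MvPolynomial (Fin N) k) (hf : ∀ i, IsWeightedHomogeneous w (f i) (d i))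
    (H : Λ → MvPolynomial ι k) (μ : Λ → ℕ) (hH : ∀ l, IsWeightedHomogeneous d (H l) (μ l))
    (T : Finset (Fin N)) (A : Finset ι)
    (hA : ∀ i, i ∉ A → ∀ p : Fin N → k, (∀ j, j ∉ T → p j = 0) → eval p (f i) = 0)
    (hT : ∀ p : Fin N → k, (∀ j, j ∉ T → p j = 0) →
      (∀ l, eval (fun i => eval p (f i)) (H l) = 0) → p = 0)
    {K : Type} [Field K] [Algebra k K] (y : ι → K) (hy : ∀ i, i ∉ A → y i = 0)
    (hyH : ∀ l, aeval y (H l) = 0) (γ : κ → ι) (hγ : Function.Injective γ) (hγA : ∀ i, γ i ∈ A)
    (hind : AlgebraicIndependent k (y ∘ γ)) : T.card + Fintype.card κ ≤ A.card := by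
  classical
  let γ' : κ → {i // i ∈ A} := fun i => ⟨γ i, hγA i⟩
  have hγ' : Function.Injective γ' := fun i j h => hγ (congrArg Subtype.val h)
  have key := hDim k {i // i ∈ T} {i // i ∈ A} Λ (fun i => w i.1) (fun i => d i.1)
    (fun i => res T (f i.1)) (fun l => aeval (cut (k := k) A) (H l)) μ K (fun i => y i.1)
    (univ.image γ') (fun i => hw _) (fun i => hd _) (fun i => res_hom T (hf _))
    (fun l => cut_hom A (hH l)) ?_ (fun l => by rw [aeval_cut A y hy]; exact hyH l) ?_
  · rw [Fintype.card_coe, Fintype.card_coe, Finset.card_image_of_injective _ hγ',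
      Finset.card_univ] at key
    exact key
  · intro p hp
    have h1 : ext0 T p = 0 := by
      apply hT _ (fun i hi => ext0_of_not_mem p hi)
      intro l
      have h2 := hp l
      rw [← coe_aeval_eq_eval, RingHom.coe_coe] at h2
      have h3 := aeval_cut A (fun i => eval (ext0 T p) (f i))
        (fun i hi => hA i hi _ (fun j hj => ext0_of_not_mem p hj)) (H l)
      rw [← coe_aeval_eq_eval, RingHom.coe_coe, ← h3]
      have h4 : (fun i : {i // i ∈ A} => eval (ext0 T p) (f i.1))
          = fun i : {i // i ∈ A} => eval p (res T (f i.1)) := by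
        funext i
        exact (eval_res T p (f i.1)).symm
      rw [h4]
      exact h2
    funext i
    have h2 := congrFun h1 i.1
    simpa [ext0, i.2] using h2
  · choose ψ hψ using fun j : {j // j ∈ univ.image γ'} => Finset.mem_image.1 j.2
    have h1 : (fun j : {j // j ∈ univ.image γ'} => y j.1.1) = (y ∘ γ) ∘ ψ := by
      funext j
      have h2 := (hψ j).2
      show y j.1.1 = y (γ (ψ j))
      rw [← h2]
    rw [h1]
    refine hind.comp ψ ?_
    intro i j h
    have h2 := (hψ i).2
    have h3 := (hψ j).2
    rw [h, h3] at h2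
    exact Subtype.ext h2.symm

end Pool.Agent.Q2.TF
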