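import Pool.Agent.Q2.TF.Lift
import Pool.Agent.Q2.TF.Gen

/-!
# Toric formats: the count of the fixed coordinates for one face
-/

set_option autoImplicit false

namespace Pool.Agent.Q2.TF

open Finset MvPolynomial Pool.Agent.Q35.PX
open scoped Matrix

variable {k : Type} [Field k]

theorem algInd_pow {r : ℕ} (I : Finset (Fin r)) (e : Fin r → ℕ) (he : ∀ i ∈ I, 0 < e i) :
    AlgebraicIndependent k (fun i : {i // i ∈ I} => (X i.1 ^ e i.1 : MvPolynomial (Fin r) k)) := by
  have h2 : AlgebraicIndependent k (fun i : {i // i ∈ I} => (X i.1 : MvPolynomial (Fin r) k)) :=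
    (MvPolynomial.algebraicIndependent_X (Fin r) k).comp _ Subtype.val_injective
  have h3 := h2.polynomial_aeval_of_transcendental
    (f := fun i => (Polynomial.X : Polynomial k) ^ e i.1)
    (fun i => (Polynomial.transcendental_X k).pow (he i.1 i.2))
  simpa using h3

theorem rel_dot {s r : ℕ} {u : Fin s → Fin r → ℤ} (a : Fin s → ℕ) (v : Fin r → ℤ) :
    (∑ l, a l • u l) ⬝ᵥ v = ∑ l, (a l : ℤ) * (u l ⬝ᵥ v) := by
  rw [sum_dotProduct]
  refine Finset.sum_congr rfl fun l _ => ?_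
  rw [← natCast_zsmul, smul_dotProduct, smul_eq_mul]

/-- the monomials in the coordinates of the simplex, restricted to the face of `I` -/
noncomputable def pt {s r : ℕ} (e : Fin s → Fin r → ℕ) (I : Finset (Fin r)) (l : Fin s) :
    MvPolynomial (Fin r) k := by
  classical
  exact ∏ i, (if i ∈ I then X i else 0) ^ e l i

theorem pt_rel {s r : ℕ} (e : Fin s → Fin r → ℕ) (I : Finset (Fin r)) (a b : Fin s → ℕ)
    (h : ∀ i, ∑ l, a l * e l i = ∑ l, b l * e l i) :
    ∏ l, pt (k := k) e I l ^ a l = ∏ l, pt (k := k) e I l ^ b l := by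
  classical
  have hmon : ∀ a : Fin s → ℕ, ∏ l, pt (k := k) e I l ^ a l
      = ∏ i, (if i ∈ I then X i else 0) ^ (∑ l, a l * e l i) := by
    intro a
    unfold pt
    simp only [← Finset.prod_pow, ← pow_mul]
    rw [Finset.prod_comm]
    refine Finset.prod_congr rfl fun i _ => ?_
    rw [Finset.prod_pow_eq_pow_sum]
    congr 1
    exact Finset.sum_congr rfl fun l _ => mul_comm _ _
  rw [hmon, hmon]
  exact Finset.prod_congr rfl fun i _ => by rw [h i]

theorem pt_zero {s r : ℕ} (e : Fin s → Fin r → ℕ) (I : Finset (Fin r)) {l : Fin s} {j : Fin r}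
    (hj : j ∉ I) (h : e l j ≠ 0) : pt (k := k) e I l = 0 := by
  classical
  unfold pt
  refine Finset.prod_eq_zero (mem_univ j) ?_
  rw [if_neg hj, zero_pow h]

theorem pt_gen {s r : ℕ} (e : Fin s → Fin r → ℕ) (I : Finset (Fin r)) {l : Fin s} {i : Fin r}
    (hi : i ∈ I) (h : ∀ j, j ≠ i → e l j = 0) : pt (k := k) e I l = X i ^ e l i := by
  classical
  unfold pt
  rw [Finset.prod_eq_single i]
  · rw [if_pos hi]
  · intro j _ hj
    rw [h j hj, pow_zero]
  · intro h0
    exact absurd (mem_univ i) h0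

/-- the equations of the toric variety, and the coordinates which are equal to zero -/
noncomputable def eqs {s q r : ℕ} (u : Fin s → Fin r → ℤ) :
    {ab : (Fin s → ℕ) × (Fin s → ℕ) // ∑ l, ab.1 l • u l = ∑ l, ab.2 l • u l} ⊕ Fin q →
      MvPolynomial (Fin s ⊕ Fin q) k :=
  Sum.elim (fun ab => ∏ l, X (Sum.inl l) ^ ab.1.1 l - ∏ l, X (Sum.inl l) ^ ab.1.2 l)
    (fun j => X (Sum.inr j))

theorem count [IsAlgClosed k] (hDim : S_Dim) {N s q r : ℕ}
    {w : Fin N → ℕ} (hw : ∀ i, 0 < w i) {u : Fin s → Fin r → ℤ} (lam : Fin r → ℤ)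
    (d : Fin s → ℕ) (hd : ∀ l, (d l : ℤ) = u l ⬝ᵥ lam) (hd0 : ∀ l, 0 < d l)
    (δ : Fin q → ℕ) (hδ : ∀ j, 0 < δ j)
    (f : Fin s → MvPolynomial (Fin N) k) (g : Fin q → MvPolynomial (Fin N) k)
    (hf : ∀ l, IsWeightedHomogeneous w (f l) (d l))
    (hg : ∀ j, IsWeightedHomogeneous w (g j) (δ j))
    (T : Finset (Fin N)) (A : Finset (Fin s)) (B : Finset (Fin q))
    (hA : ∀ l, l ∉ A → ∀ p : Fin N → k, (∀ i, i ∉ T → p i = 0) → eval p (f l) = 0)
    (hB : ∀ j, j ∉ B → ∀ p : Fin N → k, (∀ i, i ∉ T → p i = 0) → eval p (g j) = 0)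
    (hT : ∀ p : Fin N → k, (∀ i, i ∉ T → p i = 0) →
      (∀ a b : Fin s → ℕ, ∑ l, a l • u l = ∑ l, b l • u l →
        ∏ l, eval p (f l) ^ a l = ∏ l, eval p (f l) ^ b l) →
      (∀ j, eval p (g j) = 0) → p = 0)
    (m : Matrix (Fin r) (Fin r) ℤ) (hnn : ∀ i l, 0 ≤ u l ⬝ᵥ m i)
    (I : Finset (Fin r)) (gen : Fin r → Fin s)
    (hgen : ∀ i ∈ I, ∀ j, j ≠ i → u (gen i) ⬝ᵥ m j = 0)
    (hgp : ∀ i ∈ I, 0 < u (gen i) ⬝ᵥ m i)
    (hI : ∀ l, (∀ j, j ∉ I → u l ⬝ᵥ m j = 0) → l ∈ A) :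
    T.card + I.card ≤ A.card + B.card := by
  -- the exponents
  choose e he using fun (l : Fin s) (i : Fin r) => Int.eq_ofNat_of_zero_le (hnn i l)
  have hgenA : ∀ i ∈ I, gen i ∈ A := fun i hi => hI _ fun j hj => hgen i hi j (fun h => hj (h ▸ hi))
  have hdeg : ∀ a b : Fin s → ℕ, ∑ l, a l • u l = ∑ l, b l • u l →
      ∑ l, a l * d l = ∑ l, b l * d l := by
    intro a b h
    have h1 := congrArg (fun x => x ⬝ᵥ lam) h
    simp only [rel_dot, ← hd] at h1
    exact_mod_cast h1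
  have hexp : ∀ a b : Fin s → ℕ, ∑ l, a l • u l = ∑ l, b l • u l → ∀ i,
      ∑ l, a l * e l i = ∑ l, b l * e l i := by
    intro a b h i
    have h1 := congrArg (fun x => x ⬝ᵥ m i) h
    simp only [rel_dot, he] at h1
    exact_mod_cast h1
  have hgen0 : ∀ i ∈ I, ∀ j, j ≠ i → e (gen i) j = 0 := by
    intro i hi j hj
    have h1 := hgen i hi j hj
    rw [he] at h1
    exact_mod_cast h1
  have hgenp : ∀ i ∈ I, 0 < e (gen i) i := by
    intro i hi
    have h1 := hgp i hi
    rw [he] at h1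
    exact_mod_cast h1
  let K := FractionRing (MvPolynomial (Fin r) k)
  have h1 := count_gen (k := k) (K := K) hDim hw (Sum.elim d δ)
    (by rintro (l | j); exacts [hd0 _, hδ _]) (Sum.elim f g)
    (by rintro (l | j); exacts [hf _, hg _]) (eqs (q := q) u)
    (Sum.elim (fun ab => ∑ l, ab.1.1 l * d l) δ) ?_ T (A.disjSum B) ?_ ?_
    (Sum.elim (fun l => algebraMap (MvPolynomial (Fin r) k) K (pt e I l)) (fun _ => 0)) ?_ ?_
    (fun i : {i // i ∈ I} => Sum.inl (gen i.1)) ?_ ?_ ?_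
  · rwa [Finset.card_disjSum, Fintype.card_coe] at h1
  · rintro (ab | j)
    · have h2 : ∀ a : Fin s → ℕ, IsWeightedHomogeneous (Sum.elim d δ)
          (∏ l, (X (Sum.inl l) : MvPolynomial (Fin s ⊕ Fin q) k) ^ a l) (∑ l, a l * d l) := by
        intro a
        refine IsWeightedHomogeneous.prod _ _ _ fun l _ => ?_
        have := (isWeightedHomogeneous_X k (Sum.elim d δ) (Sum.inl l)).pow (a l)
        rwa [smul_eq_mul] at this
      have h3 := h2 ab.1.1
      have h4 := h2 ab.1.2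
      rw [← hdeg _ _ ab.2] at h4
      rw [← mem_weightedHomogeneousSubmodule] at h3 h4 ⊢
      exact Submodule.sub_mem _ h3 h4
    · exact isWeightedHomogeneous_X k (Sum.elim d δ) (Sum.inr j)
  · rintro (l | j) hi p hp
    · exact hA l (fun h => hi (Finset.inl_mem_disjSum.2 h)) p hp
    · exact hB j (fun h => hi (Finset.inr_mem_disjSum.2 h)) p hp
  · intro p hp h2
    apply hT p hp
    · intro a b hab
      have h3 := h2 (Sum.inl ⟨(a, b), hab⟩)
      simp only [eqs, Sum.elim_inl, map_sub, map_prod, map_pow, eval_X] at h3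
      exact sub_eq_zero.1 h3
    · intro j
      have h3 := h2 (Sum.inr j)
      simp only [eqs, Sum.elim_inr, eval_X] at h3
      exact h3
  · rintro (l | j) hi
    · have hl : l ∉ A := fun h => hi (Finset.inl_mem_disjSum.2 h)
      have h2 : ∃ j, j ∉ I ∧ u l ⬝ᵥ m j ≠ 0 := by
        by_contra hcon
        push Not at hcon
        exact hl (hI l hcon)
      obtain ⟨j, hj, hne⟩ := h2
      rw [he] at hne
      rw [Sum.elim_inl, pt_zero e I hj (by exact_mod_cast hne), map_zero]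
    · rfl
  · rintro (ab | j)
    · simp only [eqs, Sum.elim_inl, map_sub, map_prod, map_pow, aeval_X]
      rw [sub_eq_zero]
      simp only [← map_pow, ← map_prod]
      rw [pt_rel e I _ _ (hexp _ _ ab.2)]
    · simp only [eqs, Sum.elim_inr, aeval_X]
  · intro i i' h
    have h2 : gen i.1 = gen i'.1 := Sum.inl_injective h
    by_contra hne
    have h3 := hgen i.1 i.2 i'.1 (fun h => hne (Subtype.ext h.symm))
    rw [h2] at h3
    exact (hgp i'.1 i'.2).ne' h3
  · intro i
    exact Finset.inl_mem_disjSum.2 (hgenA i.1 i.2)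
  · have h2 := (algInd_pow (k := k) I (fun i => e (gen i) i) hgenp).map'
      (f := IsScalarTower.toAlgHom k (MvPolynomial (Fin r) k) K) (IsFractionRing.injective _ _)
    have h3 : (Sum.elim (fun l => algebraMap (MvPolynomial (Fin r) k) K (pt e I l))
        (fun _ => 0) : Fin s ⊕ Fin q → K) ∘ (fun i : {i // i ∈ I} => Sum.inl (gen i.1))
        = ⇑(IsScalarTower.toAlgHom k (MvPolynomial (Fin r) k) K) ∘
          (fun i : {i // i ∈ I} => (X i.1 ^ e (gen i.1) i.1 : MvPolynomial (Fin r) k)) := by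
      funext i
      show algebraMap (MvPolynomial (Fin r) k) K (pt e I (gen i.1))
        = algebraMap (MvPolynomial (Fin r) k) K (X i.1 ^ e (gen i.1) i.1)
      rw [pt_gen e I i.2 (hgen0 i.1 i.2)]
    rw [h3]
    exact h2

end Pool.Agent.Q2.TF
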