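import Pool.Agent.Q2.TF.Tri

/-!
# Toric formats: regular triangulations, generic heights
-/

set_option autoImplicit false

namespace Pool.Agent.Q2.TF

open Finset
open scoped Matrix

variable {n r : ℕ} (P : Fin n → Fin r → ℤ)

/-- the matrix with the rows `P (f i)` -/
def mat (f : Fin r → Fin n) : Matrix (Fin r) (Fin r) ℤ := Matrix.of fun i => P (f i)

/-- the rational vector of an integral vector -/
def rat (v : Fin r → ℤ) : Fin r → ℚ := fun i => (v i : ℚ)

theorem rat_dot (v w : Fin r → ℤ) : rat v ⬝ᵥ rat w = ((v ⬝ᵥ w : ℤ) : ℚ) := by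
  simp [rat, dotProduct]

theorem mat_update (f : Fin r → Fin n) (i : Fin r) (j : Fin n) :
    mat P (Function.update f i j) = (mat P f).updateRow i (P j) := by
  ext a b
  by_cases h : a = i
  · subst h
    rw [Matrix.updateRow_self]
    simp [mat]
  · rw [Matrix.updateRow_ne h]
    simp [mat, h]

theorem abs_det_eq {f g : Fin r → Fin n} (hf : Function.Injective f) (hg : Function.Injective g)
    (h : Set.range f = Set.range g) : |(mat P f).det| = |(mat P g).det| := by
  let π : Equiv.Perm (Fin r) :=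
    (Equiv.ofInjective f hf).trans ((Equiv.setCongr h).trans (Equiv.ofInjective g hg).symm)
  have hπ : ∀ i, g (π i) = f i := by
    intro i
    show g ((Equiv.ofInjective g hg).symm (Equiv.setCongr h (Equiv.ofInjective f hf i))) = f i
    rw [Equiv.apply_ofInjective_symm hg]
    rfl
  have h1 : mat P f = (mat P g).submatrix π id := by
    ext i j
    show P (f i) j = P (g (π i)) j
    rw [hπ]
  rw [h1, Matrix.det_permute, Int.cast_id, abs_mul]
  rcases Int.units_eq_one_or (Equiv.Perm.sign π) with h | h <;> simp [h]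

/-- a rational functional which vanishes on a basis is zero -/
theorem eq_zero_of_rat {f : Fin r → Fin n} (hf : (mat P f).det ≠ 0) {φ : Fin r → ℚ}
    (h : ∀ i, φ ⬝ᵥ rat (P (f i)) = 0) : φ = 0 := by
  have h1 : ((mat P f).map (Int.cast : ℤ → ℚ)).det ≠ 0 := by
    have h2 : ((mat P f).map (Int.cast : ℤ → ℚ)).det = ((mat P f).det : ℚ) :=
      (RingHom.map_det (Int.castRingHom ℚ) (mat P f)).symm
    rw [h2]
    exact_mod_cast hf
  apply Matrix.eq_zero_of_mulVec_eq_zero h1
  funext i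
  have h2 := h i
  rw [dotProduct_comm] at h2
  exact h2

theorem ext_rat {f : Fin r → Fin n} (hf : (mat P f).det ≠ 0) {φ ψ : Fin r → ℚ}
    (h : ∀ i, φ ⬝ᵥ rat (P (f i)) = ψ ⬝ᵥ rat (P (f i))) : φ = ψ := by
  have h1 : φ - ψ = 0 := by
    apply eq_zero_of_rat P hf
    intro i
    rw [sub_dotProduct, h i, sub_self]
  exact sub_eq_zero.1 h1

theorem injective_of_det {f : Fin r → Fin n} (hf : (mat P f).det ≠ 0) : Function.Injective f := by
  intro i j h
  by_contra hne
  apply hf
  refine Matrix.det_zero_of_row_eq hne ?_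
  show P (f i) = P (f j)
  rw [h]

/-- heights for which no `r + 1` lifted points lie on a hyperplane -/
def Generic (ω : Fin n → ℚ) : Prop :=
  ∀ f : Fin r → Fin n, (mat P f).det ≠ 0 → ∀ j, j ∉ Set.range f → ∀ φ : Fin r → ℚ,
    (∀ i, φ ⬝ᵥ rat (P (f i)) = ω (f i)) → φ ⬝ᵥ rat (P j) ≠ ω j

theorem exists_generic : ∃ ω : Fin n → ℚ, Generic P ω := by
  classical
  -- the subspaces which must be avoided
  let W : (Fin r → Fin n) × Fin n → Subspace ℚ (Fin n → ℚ) := fun x =>
    { carrier := {ω | ∃ φ : Fin r → ℚ, (∀ i, φ ⬝ᵥ rat (P (x.1 i)) = ω (x.1 i)) ∧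
        φ ⬝ᵥ rat (P x.2) = ω x.2}
      add_mem' := by
        rintro ω ω' ⟨φ, h1, h2⟩ ⟨φ', h1', h2'⟩
        exact ⟨φ + φ', fun i => by rw [add_dotProduct, h1, h1', Pi.add_apply],
          by rw [add_dotProduct, h2, h2', Pi.add_apply]⟩
      zero_mem' := ⟨0, fun i => by simp, by simp⟩
      smul_mem' := by
        rintro c ω ⟨φ, h1, h2⟩
        exact ⟨c • φ, fun i => by rw [smul_dotProduct, h1, Pi.smul_apply],
          by rw [smul_dotProduct, h2, Pi.smul_apply]⟩ }
  let S : Finset ((Fin r → Fin n) × Fin n) :=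
    univ.filter fun x => (mat P x.1).det ≠ 0 ∧ x.2 ∉ Set.range x.1
  have hS : (⊤ : Subspace ℚ (Fin n → ℚ)) ∉ S.image W := by
    intro h
    obtain ⟨x, hx, hW⟩ := Finset.mem_image.1 h
    obtain ⟨hx1, hx2⟩ := (Finset.mem_filter.1 hx).2
    have h1 : (Pi.single x.2 1 : Fin n → ℚ) ∈ W x := by rw [hW]; trivial
    obtain ⟨φ, h2, h3⟩ := h1
    have h4 : φ = 0 := by
      apply eq_zero_of_rat P hx1
      intro i
      rw [h2 i, Pi.single_eq_of_ne]
      exact fun h => hx2 ⟨i, h⟩
    rw [h4, zero_dotProduct, Pi.single_eq_same] at h3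
    exact absurd h3 (by norm_num)
  have h1 := Subspace.biUnion_ne_univ_of_top_notMem hS
  obtain ⟨ω, hω⟩ := (Set.ne_univ_iff_exists_notMem _).1 h1
  refine ⟨ω, fun f hf j hj φ hφ hj' => hω ?_⟩
  rw [Set.mem_iUnion₂]
  exact ⟨W (f, j), Finset.mem_image_of_mem _ (Finset.mem_filter.2 ⟨mem_univ _, hf, hj⟩),
    φ, hφ, hj'⟩

end Pool.Agent.Q2.TF
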