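import Pool.Agent.Q2.TF.Ex1

/-!
# Toric formats: regular triangulations, the cells
-/

set_option autoImplicit false

namespace Pool.Agent.Q2.TF

open Finset
open scoped Matrix

variable {n r : ℕ} (P : Fin n → Fin r → ℤ) (ω : Fin n → ℚ)

/-- the set of vertices of a simplex of the regular triangulation, in terms of an enumeration -/
def IsCell (f : Fin r → Fin n) : Prop := (mat P f).det ≠ 0 ∧ ∃ φ : Fin r → ℚ,
  (∀ i, φ ⬝ᵥ rat (P (f i)) = ω (f i)) ∧ ∀ j, j ∉ Set.range f → φ ⬝ᵥ rat (P j) < ω j

/-- the simplices of the regular triangulation -/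
def Cell : Type := {B : Finset (Fin n) // ∃ h : B.card = r, IsCell P ω (B.orderEmbOfFin h)}

noncomputable instance : Fintype (Cell P ω) := by
  classical
  exact Subtype.fintype _

variable {P ω}

/-- the enumeration of the vertices -/
def Cell.enum (B : Cell P ω) : Fin r → Fin n := B.1.orderEmbOfFin B.2.1

theorem Cell.range_enum (B : Cell P ω) : Set.range B.enum = B.1 :=
  Finset.range_orderEmbOfFin _ _

theorem Cell.enum_injective (B : Cell P ω) : Function.Injective B.enum :=
  (B.1.orderEmbOfFin B.2.1).injective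

theorem Cell.isCell (B : Cell P ω) : IsCell P ω B.enum := B.2.2

theorem Cell.mem_iff (B : Cell P ω) {j : Fin n} : j ∈ B.1 ↔ ∃ i, B.enum i = j := by
  rw [← Finset.mem_coe, ← B.range_enum]
  rfl

/-- the property does not depend on the enumeration -/
theorem IsCell.of_range {f g : Fin r → Fin n} (hg : Function.Injective g)
    (h : Set.range f = Set.range g) (hf : IsCell P ω f) : IsCell P ω g := by
  obtain ⟨hdet, φ, h1, h2⟩ := hf
  refine ⟨?_, φ, ?_, ?_⟩
  · have h3 := abs_det_eq P (injective_of_det P hdet) hg h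
    intro h0
    rw [h0, abs_zero, abs_eq_zero] at h3
    exact hdet h3
  · intro i
    have h3 : g i ∈ Set.range f := by rw [h]; exact ⟨i, rfl⟩
    obtain ⟨j, hj⟩ := h3
    rw [← hj]
    exact h1 j
  · intro j hj
    rw [← h] at hj
    exact h2 j hj

open Classical in
/-- the simplex with a given enumeration -/
noncomputable def mkCell (f : Fin r → Fin n) (hf : IsCell P ω f) : Cell P ω :=
  ⟨univ.image f, by
    have h1 : (univ.image f).card = r := by
      rw [Finset.card_image_of_injective _ (injective_of_det P hf.1), Finset.card_univ,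
        Fintype.card_fin]
    refine ⟨h1, IsCell.of_range (Finset.orderEmbOfFin _ h1).injective ?_ hf⟩
    rw [Finset.range_orderEmbOfFin]
    simp⟩

theorem mkCell_range (f : Fin r → Fin n) (hf : IsCell P ω f) :
    Set.range (mkCell f hf).enum = Set.range f := by
  rw [Cell.range_enum]
  simp [mkCell]

/-- the facet opposite to the vertex `i` -/
def facet (B : Cell P ω) (i : Fin r) : Set (Fin n) := Set.range B.enum \ {B.enum i}

theorem mem_facet {B : Cell P ω} {i : Fin r} {j : Fin n} :
    j ∈ facet B i ↔ ∃ a, a ≠ i ∧ B.enum a = j := by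
  constructor
  · rintro ⟨⟨a, ha⟩, h⟩
    refine ⟨a, ?_, ha⟩
    rintro rfl
    exact h ha.symm
  · rintro ⟨a, ha, rfl⟩
    exact ⟨⟨a, rfl⟩, fun h => ha (B.enum_injective h)⟩

/-- the cofactor vector of a facet -/
def cv (x : Cell P ω × Fin r) : Fin r → ℤ := cof (mat P x.1.enum) x.2

theorem cv_self (x : Cell P ω × Fin r) : 0 < cv x ⬝ᵥ P (x.1.enum x.2) := by
  have h := cof_self (mat P x.1.enum) x.2
  have h1 : cv x ⬝ᵥ P (x.1.enum x.2) = |(mat P x.1.enum).det| := h
  rw [h1]
  exact abs_pos.2 x.1.isCell.1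

theorem cv_facet (x : Cell P ω × Fin r) {j : Fin n} (hj : j ∈ facet x.1 x.2) :
    cv x ⬝ᵥ P j = 0 := by
  obtain ⟨a, ha, rfl⟩ := mem_facet.1 hj
  exact cof_ne (mat P x.1.enum) ha

/-- the value of the cofactor vector at another point -/
theorem cv_abs (x : Cell P ω × Fin r) {g : Fin r → Fin n} (hg : Function.Injective g) {j : Fin n}
    (h : Set.range g = insert j (facet x.1 x.2)) (hj : j ∉ facet x.1 x.2) :
    |cv x ⬝ᵥ P j| = |(mat P g).det| := by
  have h1 : cv x ⬝ᵥ P j = (mat P x.1.enum).det.sign *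
      ((mat P x.1.enum).updateRow x.2 (P j)).det := cof_dot _ _ _
  have h2 : Function.Injective (Function.update x.1.enum x.2 j) := by
    intro a b hab
    by_cases ha : a = x.2
    · by_cases hb : b = x.2
      · rw [ha, hb]
      · exfalso
        rw [ha, Function.update_self, Function.update_of_ne hb] at hab
        exact hj (mem_facet.2 ⟨b, hb, hab.symm⟩)
    · by_cases hb : b = x.2
      · exfalso
        rw [hb, Function.update_self, Function.update_of_ne ha] at hab
        exact hj (mem_facet.2 ⟨a, ha, hab⟩)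
      · rw [Function.update_of_ne ha, Function.update_of_ne hb] at hab
        exact x.1.enum_injective hab
  have h3 : Set.range (Function.update x.1.enum x.2 j) = Set.range g := by
    rw [h]
    ext a
    constructor
    · rintro ⟨b, rfl⟩
      by_cases hb : b = x.2
      · rw [hb, Function.update_self]
        exact Set.mem_insert _ _
      · rw [Function.update_of_ne hb]
        exact Set.mem_insert_of_mem _ (mem_facet.2 ⟨b, hb, rfl⟩)
    · rintro (rfl | ha)
      · exact ⟨x.2, Function.update_self _ _ _⟩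
      · obtain ⟨b, hb, rfl⟩ := mem_facet.1 ha
        exact ⟨b, Function.update_of_ne hb _ _⟩
  rw [h1, ← mat_update, abs_mul, abs_det_eq P h2 hg h3]
  have h4 : |(mat P x.1.enum).det.sign| = 1 := by
    rcases lt_or_gt_of_ne x.1.isCell.1 with h | h
    · rw [Int.sign_eq_neg_one_of_neg h]; rfl
    · rw [Int.sign_eq_one_of_pos h]; rfl
  rw [h4, one_mul]

/-- the range of a cell is its facet and the opposite vertex -/
theorem range_eq (B : Cell P ω) (i : Fin r) :
    Set.range B.enum = insert (B.enum i) (facet B i) := by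
  ext a
  constructor
  · rintro ⟨b, rfl⟩
    by_cases hb : b = i
    · rw [hb]; exact Set.mem_insert _ _
    · exact Set.mem_insert_of_mem _ (mem_facet.2 ⟨b, hb, rfl⟩)
  · rintro (rfl | ha)
    · exact ⟨i, rfl⟩
    · exact ha.1

/-- **Opposite cofactor vectors.** -/
theorem cv_add {x y : Cell P ω × Fin r} (h : facet y.1 y.2 = facet x.1 x.2)
    (hneg : cv x ⬝ᵥ P (y.1.enum y.2) < 0) : cv x + cv y = 0 := by
  apply eq_zero_of_dot y.1.isCell.1
  intro i
  show (cv x + cv y) ⬝ᵥ P (y.1.enum i) = 0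
  rw [add_dotProduct]
  by_cases hi : i = y.2
  · rw [hi]
    have h1 : cv y ⬝ᵥ P (y.1.enum y.2) = |(mat P y.1.enum).det| := cof_self (mat P y.1.enum) y.2
    have h2 : y.1.enum y.2 ∉ facet x.1 x.2 := by
      rw [← h]
      exact fun h => h.2 rfl
    have h3 := cv_abs x y.1.enum_injective (j := y.1.enum y.2) (by rw [← h]; exact range_eq _ _) h2
    rw [h1, ← h3, abs_of_neg hneg, add_neg_cancel]
  · have h1 : y.1.enum i ∈ facet y.1 y.2 := mem_facet.2 ⟨i, hi, rfl⟩
    rw [cv_facet y h1, cv_facet x (h ▸ h1), add_zero]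

/-- **Uniqueness.** There is at most one simplex on each side of a facet. -/
theorem unique {x y : Cell P ω × Fin r} (h : facet y.1 y.2 = facet x.1 x.2)
    (hpos : 0 < cv x ⬝ᵥ P (y.1.enum y.2)) : x = y := by
  obtain ⟨-, φ, h1, h2⟩ := x.1.isCell
  obtain ⟨-, φ', h1', h2'⟩ := y.1.isCell
  -- the difference is a multiple of the functional
  set b := x.1.enum x.2 with hb
  set b' := y.1.enum y.2 with hb'
  set ψ : Fin r → ℚ := rat (cv x) with hψ
  have hψb : 0 < ψ ⬝ᵥ rat (P b) := by
    rw [hψ, rat_dot]; exact_mod_cast cv_self x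
  have hψb' : 0 < ψ ⬝ᵥ rat (P b') := by
    rw [hψ, rat_dot]; exact_mod_cast hpos
  have hd : φ' - φ = ((φ' - φ) ⬝ᵥ rat (P b) / (ψ ⬝ᵥ rat (P b))) • ψ := by
    apply ext_rat P x.1.isCell.1
    intro i
    rw [smul_dotProduct, smul_eq_mul]
    by_cases hi : i = x.2
    · rw [hi, div_mul_cancel₀ _ hψb.ne']
    · have h3 : x.1.enum i ∈ facet x.1 x.2 := mem_facet.2 ⟨i, hi, rfl⟩
      have h4 : ψ ⬝ᵥ rat (P (x.1.enum i)) = 0 := by
        rw [hψ, rat_dot, cv_facet x h3, Int.cast_zero]
      rw [h4, mul_zero, sub_dotProduct, h1 i]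
      rw [← h] at h3
      obtain ⟨j, -, hj⟩ := mem_facet.1 h3
      rw [← hj, h1' j, sub_self]
  set t := (φ' - φ) ⬝ᵥ rat (P b) / (ψ ⬝ᵥ rat (P b)) with ht
  -- the values at the two vertices
  have e1 : (φ' - φ) ⬝ᵥ rat (P b) ≤ 0 := by
    rw [sub_dotProduct, hb, h1 x.2, sub_nonpos]
    by_cases hm : x.1.enum x.2 ∈ Set.range y.1.enum
    · obtain ⟨j, hj⟩ := hm
      rw [← hj, h1' j]
    · exact (h2' _ hm).le
  have e2 : 0 ≤ (φ' - φ) ⬝ᵥ rat (P b') := by
    rw [sub_dotProduct, hb', h1' y.2, sub_nonneg]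
    by_cases hm : y.1.enum y.2 ∈ Set.range x.1.enum
    · obtain ⟨j, hj⟩ := hm
      rw [← hj, h1 j]
    · exact (h2 _ hm).le
  have ht0 : t ≤ 0 := div_nonpos_of_nonpos_of_nonneg e1 hψb.le
  have ht1 : 0 ≤ t := by
    rw [hd, smul_dotProduct, smul_eq_mul] at e2
    by_contra hcon
    push Not at hcon
    have := mul_neg_of_neg_of_pos hcon hψb'
    linarith
  have ht2 : t = 0 := le_antisymm ht0 ht1
  have h3 : φ' = φ := by
    rw [ht2, zero_smul, sub_eq_zero] at hd
    exact hd
  -- the two vertices coincide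
  have h4 : b' = b := by
    by_contra hne
    have h5 : b' ∉ Set.range x.1.enum := by
      rw [range_eq x.1 x.2]
      rintro (h6 | h6)
      · exact hne h6
      · rw [← h] at h6
        exact h6.2 rfl
    have h6 := h2 b' h5
    rw [← h3, hb', h1' y.2] at h6
    exact lt_irrefl _ h6
  have h5 : x.1 = y.1 := by
    apply Subtype.ext
    apply Finset.coe_injective
    rw [← x.1.range_enum, ← y.1.range_enum, range_eq x.1 x.2, range_eq y.1 y.2, h, ← hb', h4]
  obtain ⟨B, i⟩ := x
  obtain ⟨B', i'⟩ := y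
  simp only at h5
  subst h5
  have h6 : i' = i := B.enum_injective h4
  rw [h6]

end Pool.Agent.Q2.TF
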