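import Pool.Agent.Q2.TF.Ex2

/-!
# Toric formats: regular triangulations, neighbours and existence
-/

set_option autoImplicit false

namespace Pool.Agent.Q2.TF

open Finset
open scoped Matrix

variable {n r : ℕ} {P : Fin n → Fin r → ℤ} {ω : Fin n → ℚ}

/-- **Neighbours.** If some point lies on the other side of a facet of a simplex of the
triangulation, there is a simplex on the other side. -/
theorem exists_neighbour (hω : Generic P ω) (x : Cell P ω × Fin r)
    (h : ∃ j, cv x ⬝ᵥ P j < 0) :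
    ∃ y : Cell P ω × Fin r, facet y.1 y.2 = facet x.1 x.2 ∧ cv x ⬝ᵥ P (y.1.enum y.2) < 0 := by
  classical
  obtain ⟨-, φ, h1, h2⟩ := x.1.isCell
  set b := x.1.enum x.2 with hb
  set ψ : Fin r → ℚ := rat (cv x) with hψ
  have hψP : ∀ j, ψ ⬝ᵥ rat (P j) = ((cv x ⬝ᵥ P j : ℤ) : ℚ) := fun j => by rw [hψ, rat_dot]
  have hcv0 : ∀ j, j ∈ Set.range x.1.enum → 0 ≤ cv x ⬝ᵥ P j := by
    intro j hj
    rw [range_eq x.1 x.2] at hj
    rcases hj with rfl | hj
    · exact (cv_self x).le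
    · exact (cv_facet x hj).ge
  -- the points on the other side
  let J : Finset (Fin n) := univ.filter fun j => cv x ⬝ᵥ P j < 0
  have hJ : J.Nonempty := by
    obtain ⟨j, hj⟩ := h
    exact ⟨j, Finset.mem_filter.2 ⟨mem_univ _, hj⟩⟩
  obtain ⟨j₀, hj₀, hmin⟩ := Finset.exists_min_image J
    (fun j => (ω j - φ ⬝ᵥ rat (P j)) / (-(ψ ⬝ᵥ rat (P j)))) hJ
  have hneg : ∀ j ∈ J, ψ ⬝ᵥ rat (P j) < 0 := by
    intro j hj
    rw [hψP]
    exact_mod_cast (Finset.mem_filter.1 hj).2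
  have hnot : ∀ j ∈ J, j ∉ Set.range x.1.enum := by
    intro j hj hr
    exact absurd (hcv0 j hr) (not_le.2 (Finset.mem_filter.1 hj).2)
  set ρ := (ω j₀ - φ ⬝ᵥ rat (P j₀)) / (-(ψ ⬝ᵥ rat (P j₀))) with hρ
  have hρ0 : 0 < ρ := div_pos (sub_pos.2 (h2 j₀ (hnot j₀ hj₀))) (neg_pos.2 (hneg j₀ hj₀))
  -- the new functional
  set φ' : Fin r → ℚ := φ - ρ • ψ with hφ'
  have hφ'P : ∀ j, φ' ⬝ᵥ rat (P j) = φ ⬝ᵥ rat (P j) - ρ * (ψ ⬝ᵥ rat (P j)) := by
    intro j
    rw [hφ', sub_dotProduct, smul_dotProduct, smul_eq_mul]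
  set g : Fin r → Fin n := Function.update x.1.enum x.2 j₀ with hg
  have hgr : Set.range g = insert j₀ (facet x.1 x.2) := by
    ext a
    constructor
    · rintro ⟨c, rfl⟩
      by_cases hc : c = x.2
      · rw [hc, hg, Function.update_self]
        exact Set.mem_insert _ _
      · rw [hg, Function.update_of_ne hc]
        exact Set.mem_insert_of_mem _ (mem_facet.2 ⟨c, hc, rfl⟩)
    · rintro (rfl | ha)
      · exact ⟨x.2, Function.update_self _ _ _⟩
      · obtain ⟨c, hc, rfl⟩ := mem_facet.1 ha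
        exact ⟨c, Function.update_of_ne hc _ _⟩
  have hgdet : (mat P g).det ≠ 0 := by
    intro h0
    have h3 : cv x ⬝ᵥ P j₀ = (mat P x.1.enum).det.sign *
      ((mat P x.1.enum).updateRow x.2 (P j₀)).det := cof_dot _ _ _
    rw [← mat_update, ← hg, h0, mul_zero] at h3
    exact absurd h3 (Finset.mem_filter.1 hj₀).2.ne
  have e1 : φ' ⬝ᵥ rat (P j₀) = ω j₀ := by
    have h3 : ρ * (-(ψ ⬝ᵥ rat (P j₀))) = ω j₀ - φ ⬝ᵥ rat (P j₀) :=
      div_mul_cancel₀ _ (neg_pos.2 (hneg j₀ hj₀)).ne'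
    rw [hφ'P]
    linarith
  have e2 : ∀ j ∈ facet x.1 x.2, φ' ⬝ᵥ rat (P j) = ω j := by
    intro j hj
    rw [hφ'P, hψP, cv_facet x hj, Int.cast_zero, mul_zero, sub_zero]
    obtain ⟨a, -, rfl⟩ := mem_facet.1 hj
    exact h1 a
  have e3 : ∀ i, φ' ⬝ᵥ rat (P (g i)) = ω (g i) := by
    intro i
    have h3 : g i ∈ insert j₀ (facet x.1 x.2) := by rw [← hgr]; exact ⟨i, rfl⟩
    rcases h3 with h4 | h4
    · rw [h4]; exact e1
    · exact e2 _ h4
  have hcell : IsCell P ω g := by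
    refine ⟨hgdet, φ', e3, ?_⟩
    intro j hj
    refine lt_of_le_of_ne ?_ (hω g hgdet j hj φ' e3)
    rw [hφ'P]
    by_cases hjJ : j ∈ J
    · have h3 := hmin j hjJ
      have h4 : 0 < -(ψ ⬝ᵥ rat (P j)) := neg_pos.2 (hneg j hjJ)
      have h5 : ρ ≤ (ω j - φ ⬝ᵥ rat (P j)) / (-(ψ ⬝ᵥ rat (P j))) := h3
      rw [le_div_iff₀ h4] at h5
      linarith
    · have h3 : 0 ≤ ψ ⬝ᵥ rat (P j) := by
        rw [hψP]
        have h4 : 0 ≤ cv x ⬝ᵥ P j := by
          by_contra h5
          exact hjJ (Finset.mem_filter.2 ⟨mem_univ _, not_le.1 h5⟩)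
        exact_mod_cast h4
      have h4 : φ ⬝ᵥ rat (P j) ≤ ω j := by
        by_cases hm : j ∈ Set.range x.1.enum
        · obtain ⟨a, rfl⟩ := hm
          exact (h1 a).le
        · exact (h2 j hm).le
      have h5 := mul_nonneg hρ0.le h3
      linarith
  -- the position of the new vertex
  have hmem : j₀ ∈ Set.range (mkCell g hcell).enum := by
    rw [mkCell_range, hgr]
    exact Set.mem_insert _ _
  obtain ⟨i, hi⟩ := hmem
  refine ⟨(mkCell g hcell, i), ?_, ?_⟩
  · show Set.range (mkCell g hcell).enum \ {(mkCell g hcell).enum i} = _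
    rw [mkCell_range, hgr, hi]
    ext a
    constructor
    · rintro ⟨h3 | h3, h4⟩
      · exact absurd h3 h4
      · exact h3
    · intro ha
      refine ⟨Set.mem_insert_of_mem _ ha, ?_⟩
      rintro rfl
      exact hnot _ hj₀ ha.1
  · show cv x ⬝ᵥ P ((mkCell g hcell).enum i) < 0
    rw [hi]
    exact (Finset.mem_filter.1 hj₀).2

/-- **Existence of a simplex.** -/
theorem exists_cell (hω : Generic P ω) {c : Fin r → ℤ} {ν : ℕ} (hν : 0 < ν)
    (hc : ∀ j, c ⬝ᵥ P j = ν) (hspan : ∃ f : Fin r → Fin n, (mat P f).det ≠ 0) :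
    Nonempty (Cell P ω) := by
  classical
  -- feasible functionals
  let Fe : (Fin r → ℚ) → Prop := fun φ => ∀ j, φ ⬝ᵥ rat (P j) ≤ ω j
  let ti : (Fin r → ℚ) → Finset (Fin n) := fun φ => univ.filter fun j => φ ⬝ᵥ rat (P j) = ω j
  have hfe : ∃ φ, Fe φ := by
    obtain ⟨t, ht⟩ : ∃ t : ℚ, 0 ≤ t ∧ ∀ j, - ω j ≤ t := by
      refine ⟨∑ j, |ω j|, Finset.sum_nonneg fun j _ => abs_nonneg _, fun j => ?_⟩
      exact le_trans (neg_le_abs _) (Finset.single_le_sum (f := fun j => |ω j|)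
        (fun j _ => abs_nonneg _) (mem_univ j))
    refine ⟨(-t) • rat c, fun j => ?_⟩
    rw [smul_dotProduct, rat_dot, hc, smul_eq_mul]
    have h1 : (1 : ℚ) ≤ ((ν : ℤ) : ℚ) := by exact_mod_cast hν
    have h2 := mul_le_mul_of_nonneg_left h1 ht.1
    have h3 := ht.2 j
    linarith
  -- a feasible functional with the most tight constraints
  obtain ⟨φ, hφ, hmax⟩ : ∃ φ, Fe φ ∧ ∀ φ', Fe φ' → (ti φ').card ≤ (ti φ).card := by
    have h1 : ∃ k, ∃ φ, Fe φ ∧ n - (ti φ).card = k := by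
      obtain ⟨φ, hφ⟩ := hfe
      exact ⟨_, φ, hφ, rfl⟩
    obtain ⟨φ, hφ, hk⟩ := Nat.find_spec h1
    refine ⟨φ, hφ, fun φ' hφ' => ?_⟩
    have h2 := Nat.find_min' h1 ⟨φ', hφ', rfl⟩
    have h3 : (ti φ').card ≤ n := by
      have := Finset.card_le_univ (ti φ')
      rwa [Fintype.card_fin] at this
    have h4 : (ti φ).card ≤ n := by
      have := Finset.card_le_univ (ti φ)
      rwa [Fintype.card_fin] at this
    omega
  -- the tight points span
  have hspan' : ∀ ψ : Fin r → ℚ, (∀ j ∈ ti φ, ψ ⬝ᵥ rat (P j) = 0) → ψ = 0 := by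
    -- it suffices to find a contradiction if some value is positive
    have key : ∀ ψ : Fin r → ℚ, (∀ j ∈ ti φ, ψ ⬝ᵥ rat (P j) = 0) →
        ∀ j, ¬ 0 < ψ ⬝ᵥ rat (P j) := by
      intro ψ hψ j hj
      let J : Finset (Fin n) := univ.filter fun j => 0 < ψ ⬝ᵥ rat (P j)
      have hJ : J.Nonempty := ⟨j, Finset.mem_filter.2 ⟨mem_univ _, hj⟩⟩
      obtain ⟨j₀, hj₀, hmin⟩ := Finset.exists_min_image J
        (fun j => (ω j - φ ⬝ᵥ rat (P j)) / (ψ ⬝ᵥ rat (P j))) hJ
      have hp0 : 0 < ψ ⬝ᵥ rat (P j₀) := (Finset.mem_filter.1 hj₀).2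
      set ρ := (ω j₀ - φ ⬝ᵥ rat (P j₀)) / (ψ ⬝ᵥ rat (P j₀)) with hρ
      have hρ0 : 0 ≤ ρ := div_nonneg (sub_nonneg.2 (hφ j₀)) hp0.le
      have hval : ∀ j, (φ + ρ • ψ) ⬝ᵥ rat (P j) = φ ⬝ᵥ rat (P j) + ρ * (ψ ⬝ᵥ rat (P j)) := by
        intro j
        rw [add_dotProduct, smul_dotProduct, smul_eq_mul]
      have hfe' : Fe (φ + ρ • ψ) := by
        intro j
        rw [hval]
        by_cases hjJ : j ∈ J
        · have h4 : 0 < ψ ⬝ᵥ rat (P j) := (Finset.mem_filter.1 hjJ).2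
          have h5 : ρ ≤ (ω j - φ ⬝ᵥ rat (P j)) / (ψ ⬝ᵥ rat (P j)) := hmin j hjJ
          rw [le_div_iff₀ h4] at h5
          linarith
        · have h4 : ψ ⬝ᵥ rat (P j) ≤ 0 := by
            by_contra h5
            exact hjJ (Finset.mem_filter.2 ⟨mem_univ _, not_le.1 h5⟩)
          have h5 := mul_nonpos_of_nonneg_of_nonpos hρ0 h4
          have h6 := hφ j
          linarith
      have hsub : insert j₀ (ti φ) ⊆ ti (φ + ρ • ψ) := by
        intro j hj
        refine Finset.mem_filter.2 ⟨mem_univ _, ?_⟩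
        rw [hval]
        rcases Finset.mem_insert.1 hj with rfl | hj
        · have h5 : ρ * (ψ ⬝ᵥ rat (P j)) = ω j - φ ⬝ᵥ rat (P j) := div_mul_cancel₀ _ hp0.ne'
          linarith
        · rw [hψ j hj, mul_zero, add_zero]
          exact (Finset.mem_filter.1 hj).2
      have hnot : j₀ ∉ ti φ := fun h => hp0.ne' (hψ j₀ h)
      have h1 := Finset.card_le_card hsub
      rw [Finset.card_insert_of_notMem hnot] at h1
      have h2 := hmax _ hfe'
      omega
    intro ψ hψ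
    obtain ⟨f, hf⟩ := hspan
    apply eq_zero_of_rat P hf
    intro i
    have h1 := key ψ hψ (f i)
    have h2 := key (-ψ) (fun j hj => by rw [neg_dotProduct, hψ j hj, neg_zero]) (f i)
    rw [neg_dotProduct, neg_pos] at h2
    exact le_antisymm (not_lt.1 h1) (not_lt.1 h2)
  -- a basis of tight points
  obtain ⟨f, hfdet, hft⟩ : ∃ f : Fin r → Fin n, (mat P f).det ≠ 0 ∧ ∀ i, f i ∈ ti φ := by
    have h1 : Submodule.span ℚ ((fun j => rat (P j)) '' (ti φ : Set (Fin n))) = ⊤ := by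
      by_contra hne
      obtain ⟨l, hl0, hl⟩ := Submodule.exists_le_ker_of_lt_top _ (lt_top_iff_ne_top.2 hne)
      apply hl0
      have h2 : (fun i => l (Pi.single i 1)) = (0 : Fin r → ℚ) := by
        apply hspan'
        intro j hj
        have h3 : l (rat (P j)) = 0 :=
          LinearMap.mem_ker.1 (hl (Submodule.subset_span ⟨j, hj, rfl⟩))
        have h4 : rat (P j) = ∑ i, rat (P j) i • (Pi.single i 1 : Fin r → ℚ) := by
          funext a
          simp [Finset.sum_apply, Pi.single_apply]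
        rw [h4, map_sum] at h3
        rw [dotProduct, ← h3]
        refine Finset.sum_congr rfl fun i _ => ?_
        rw [map_smul, smul_eq_mul, mul_comm]
      apply LinearMap.pi_ext'
      intro i
      apply LinearMap.ext_ring
      have h3 := congrFun h2 i
      simpa using h3
    obtain ⟨κ, a, -, hspan'', hli⟩ :=
      exists_linearIndependent' ℚ (fun j : {j // j ∈ ti φ} => rat (P j.1))
    have h2 : Submodule.span ℚ (Set.range ((fun j : {j // j ∈ ti φ} => rat (P j.1)) ∘ a)) = ⊤ := by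
      rw [hspan'', ← h1]
      congr 1
      ext v
      constructor
      · rintro ⟨j, rfl⟩
        exact ⟨j.1, j.2, rfl⟩
      · rintro ⟨j, hj, rfl⟩
        exact ⟨⟨j, hj⟩, rfl⟩
    let bas := Module.Basis.mk hli h2.ge
    have : Finite κ := Module.Finite.finite_basis bas
    let _ : Fintype κ := Fintype.ofFinite κ
    have hcard : Fintype.card κ = r := by
      rw [← Module.finrank_eq_card_basis bas]
      simp
    let eq : Fin r ≃ κ := (finCongr hcard.symm).trans (Fintype.equivFin κ).symm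
    refine ⟨fun i => (a (eq i)).1, ?_, fun i => (a (eq i)).2⟩
    intro h0
    have h3 : LinearIndependent ℚ (fun i => rat (P (a (eq i)).1)) := hli.comp eq eq.injective
    have h4 : ((mat P fun i => (a (eq i)).1).map (Int.cast : ℤ → ℚ)).det = 0 := by
      have h5 : ((mat P fun i => (a (eq i)).1).map (Int.cast : ℤ → ℚ)).det
          = ((mat P fun i => (a (eq i)).1).det : ℚ) :=
        (RingHom.map_det (Int.castRingHom ℚ) _).symm
      rw [h5, h0, Int.cast_zero]
    have h6 : IsUnit ((mat P fun i => (a (eq i)).1).map (Int.cast : ℤ → ℚ)) :=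
      Matrix.linearIndependent_rows_iff_isUnit.1 h3
    rw [Matrix.isUnit_iff_isUnit_det, h4] at h6
    exact not_isUnit_zero h6
  refine ⟨mkCell f ⟨hfdet, φ, fun i => (Finset.mem_filter.1 (hft i)).2, fun j hj => ?_⟩⟩
  exact lt_of_le_of_ne (hφ j) (hω f hfdet j hj φ fun i => (Finset.mem_filter.1 (hft i)).2)

end Pool.Agent.Q2.TF
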