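import Pool.Agent.Q2.TF.Ex3

/-!
# Toric formats: every lattice polytope has a balanced family of simplices
-/

set_option autoImplicit false

namespace Pool.Agent.Q2.TF

open Finset
open scoped Matrix

variable {n r : ℕ} {P : Fin n → Fin r → ℤ} {ω : Fin n → ℚ}

open Classical in
/-- the facets in the boundary -/
noncomputable def bdry (P : Fin n → Fin r → ℤ) (ω : Fin n → ℚ) : Finset (Cell P ω × Fin r) :=
  univ.filter fun x => ∀ j, 0 ≤ cv x ⬝ᵥ P j

open Classical in
/-- the interior facets cancel -/
theorem sum_interior (hω : Generic P ω) :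
    ∑ x ∈ univ.filter (fun x => x ∉ bdry P ω), cv x = 0 := by
  have hex : ∀ x : Cell P ω × Fin r, x ∉ bdry P ω → ∃ j, cv x ⬝ᵥ P j < 0 := by
    intro x hx
    by_contra hcon
    push Not at hcon
    exact hx (Finset.mem_filter.2 ⟨mem_univ _, hcon⟩)
  choose nb hnb using fun (x : Cell P ω × Fin r) (hx : x ∉ bdry P ω) =>
    exists_neighbour hω x (hex x hx)
  -- the neighbour is interior
  have hint : ∀ x (hx : x ∉ bdry P ω), cv (nb x hx) ⬝ᵥ P (x.1.enum x.2) < 0 := by
    intro x hx
    have h1 := cv_add (hnb x hx).1 (hnb x hx).2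
    have h2 : cv (nb x hx) = - cv x := by
      rw [eq_neg_iff_add_eq_zero, add_comm]
      exact h1
    rw [h2, neg_dotProduct, neg_lt_zero]
    exact cv_self x
  have hmem : ∀ x (hx : x ∉ bdry P ω), nb x hx ∉ bdry P ω := by
    intro x hx h
    exact absurd ((Finset.mem_filter.1 h).2 (x.1.enum x.2)) (not_le.2 (hint x hx))
  refine Finset.sum_involution (fun x hx => nb x (Finset.mem_filter.1 hx).2) ?_ ?_ ?_ ?_
  · intro x hx
    exact cv_add (hnb x (Finset.mem_filter.1 hx).2).1 (hnb x (Finset.mem_filter.1 hx).2).2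
  · intro x hx _ h
    have h1 := hint x (Finset.mem_filter.1 hx).2
    rw [h] at h1
    exact absurd (cv_self x) (not_lt.2 h1.le)
  · intro x hx
    exact Finset.mem_filter.2 ⟨mem_univ _, hmem x (Finset.mem_filter.1 hx).2⟩
  · intro x hx
    have hx' := (Finset.mem_filter.1 hx).2
    set y := nb x hx' with hy
    have hy' := hmem x hx'
    set z := nb y hy' with hz
    have h1 : facet z.1 z.2 = facet x.1 x.2 := (hnb y hy').1.trans (hnb x hx').1
    have h2 : cv y ⬝ᵥ P (z.1.enum z.2) < 0 := (hnb y hy').2
    have h3 : cv y = - cv x := by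
      rw [eq_neg_iff_add_eq_zero, add_comm]
      exact cv_add (hnb x hx').1 (hnb x hx').2
    rw [h3, neg_dotProduct, neg_lt_zero] at h2
    exact (unique h1 h2).symm

theorem exists_bal {s : ℕ} {c : Fin r → ℤ} {ν : ℕ} (hν : 0 < ν)
    (hc : ∀ j, c ⬝ᵥ P j = ν) (hspan : ∃ f : Fin r → Fin n, (mat P f).det ≠ 0)
    {u : Fin s → Fin r → ℤ}
    (hu : ∀ v : Fin r → ℤ, (∀ j, 0 ≤ v ⬝ᵥ P j) ↔ ∃ a : Fin s → ℕ, v = ∑ l, a l • u l)
    (hirr : ∀ l (a : Fin s → ℕ), ∑ j, a j • u j = u l → a = Pi.single l 1) :
    Nonempty (Bal u c ν) := by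
  classical
  obtain ⟨ω, hω⟩ := exists_generic P
  have hsingle : ∀ l, ∑ j, (Pi.single l 1 : Fin s → ℕ) j • u j = u l := by
    intro l
    rw [Finset.sum_eq_single l]
    · rw [Pi.single_eq_same, one_smul]
    · intro j _ hj
      rw [Pi.single_eq_of_ne hj, zero_smul]
    · intro h
      exact absurd (mem_univ l) h
  have hunn : ∀ l j, 0 ≤ u l ⬝ᵥ P j := fun l => (hu (u l)).2 ⟨Pi.single l 1, (hsingle l).symm⟩
  -- the generators are primitive
  have hprimpos : ∀ l (m : ℤ) (v : Fin r → ℤ), 0 < m → u l = m • v → m = 1 := by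
    intro l m v hm h
    have hv : ∀ j, 0 ≤ v ⬝ᵥ P j := by
      intro j
      have h1 := hunn l j
      rw [h, smul_dotProduct, smul_eq_mul] at h1
      exact nonneg_of_mul_nonneg_right h1 hm
    obtain ⟨b, hb⟩ := (hu v).1 hv
    have h1 : ∑ j, (fun j => m.toNat * b j) j • u j = u l := by
      rw [h, hb, Finset.smul_sum]
      refine Finset.sum_congr rfl fun j _ => ?_
      show (m.toNat * b j) • u j = m • b j • u j
      rw [mul_smul, ← natCast_zsmul (b j • u j), Int.toNat_of_nonneg hm.le]
    have h2 := congrFun (hirr l _ h1) l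
    rw [Pi.single_eq_same] at h2
    have h3 := Nat.eq_one_of_mul_eq_one_right h2
    omega
  have hprim : ∀ l, Primitive (u l) := by
    intro l m v h
    rcases lt_trichotomy m 0 with hm | hm | hm
    · have h1 := hprimpos l (-m) (-v) (by linarith) (by rw [h, neg_smul_neg])
      rw [Int.isUnit_iff]
      right
      linarith
    · exfalso
      rw [hm, zero_smul] at h
      have h1 := hirr l 0 (by simp [h])
      have h2 := congrFun h1 l
      rw [Pi.single_eq_same] at h2
      exact absurd h2 (by norm_num)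
    · rw [hprimpos l m v hm h]
      exact isUnit_one
  -- there are generators if `r` is positive
  have hne : ∀ x : Cell P ω × Fin r, Nonempty (Fin s) := by
    intro x
    obtain ⟨a, ha⟩ := (hu c).1 (fun j => by rw [hc]; positivity)
    by_contra hcon
    rw [not_nonempty_iff] at hcon
    have h1 : c = 0 := by rw [ha]; exact Finset.sum_of_isEmpty _
    have h2 := hc (x.1.enum x.2)
    rw [h1, zero_dotProduct] at h2
    have : (0 : ℤ) < ν := by exact_mod_cast hν
    omega
  have hgen : ∀ x : Cell P ω × Fin r, ∃ l, x ∈ bdry P ω → ∀ j ∈ facet x.1 x.2, u l ⬝ᵥ P j = 0 := by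
    intro x
    by_cases hx : x ∈ bdry P ω
    · obtain ⟨a, ha⟩ := (hu (cv x)).1 (Finset.mem_filter.1 hx).2
      have h0 : ∃ l, a l ≠ 0 := by
        by_contra hcon
        push Not at hcon
        have h1 : cv x = 0 := by
          rw [ha]
          exact Finset.sum_eq_zero fun l _ => by rw [hcon l, zero_smul]
        have h2 := cv_self x
        rw [h1, zero_dotProduct] at h2
        exact lt_irrefl _ h2
      obtain ⟨l, hl⟩ := h0
      refine ⟨l, fun _ j hj => ?_⟩
      have h1 := cv_facet x hj
      rw [ha, sum_dotProduct] at h1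
      have h2 := (Finset.sum_eq_zero_iff_of_nonneg (fun l _ => ?_)).1 h1 l (mem_univ l)
      · rw [← natCast_zsmul, smul_dotProduct, smul_eq_mul] at h2
        rcases mul_eq_zero.1 h2 with h3 | h3
        · exact absurd (by exact_mod_cast h3) hl
        · exact h3
      · rw [← natCast_zsmul, smul_dotProduct, smul_eq_mul]
        exact mul_nonneg (Nat.cast_nonneg _) (hunn l j)
    · obtain ⟨l⟩ := hne x
      exact ⟨l, fun h => absurd h hx⟩
  choose gen hgen' using hgen
  have hcell := exists_cell hω hν hc hspan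
  refine ⟨{ τ := Cell P ω
            fin := inferInstance
            ne := hcell
            m := fun B => mat P B.enum
            det_ne := fun B => B.isCell.1
            nonneg := fun B i l => hunn l _
            bd := bdry P ω
            gen := gen
            primitive := fun x _ => hprim _
            boundary := fun x hx j hj => hgen' x hx _ (mem_facet.2 ⟨j, hj, rfl⟩)
            balance := ?_ }⟩
  have h1 : ∑ x ∈ bdry P ω, cof (mat P x.1.enum) x.2 = ∑ x : Cell P ω × Fin r, cv x := by
    rw [← Finset.sum_filter_add_sum_filter_not univ (fun x => x ∈ bdry P ω), sum_interior hω,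
      add_zero]
    congr 1
    ext x
    simp
  rw [h1, Fintype.sum_prod_type, Finset.smul_sum, Finset.sum_smul]
  refine Finset.sum_congr rfl fun B _ => ?_
  exact sum_cof B.isCell.1 fun i => hc _

end Pool.Agent.Q2.TF
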