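import Mathlib

/-!
# Toric formats: the coordinates of a character in a simplex
-/

set_option autoImplicit false

namespace Pool.Agent.Q2.TF

open Finset
open scoped Matrix

/-- the value at the lattice point `u` of the character with the coordinates `z` -/
def chr {A : Type} [CommGroup A] {r : ℕ} (z : Fin r → A) (u : Fin r → ℤ) : A := ∏ j, z j ^ u j

section group

variable {A : Type} [CommGroup A] {r : ℕ}

theorem prod_zpow_sum {ι : Type} (s : Finset ι) (a : A) (f : ι → ℤ) :
    ∏ j ∈ s, a ^ f j = a ^ (∑ j ∈ s, f j) := by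
  classical
  induction s using Finset.induction_on with
  | empty => simp
  | insert i s hi ih => rw [Finset.prod_insert hi, Finset.sum_insert hi, ih, zpow_add]

theorem chr_add (z : Fin r → A) (u v : Fin r → ℤ) : chr z (u + v) = chr z u * chr z v := by
  unfold chr
  rw [← Finset.prod_mul_distrib]
  exact Finset.prod_congr rfl fun j _ => by rw [Pi.add_apply, zpow_add]

theorem chr_zero (z : Fin r → A) : chr z 0 = 1 := by simp [chr]

theorem chr_smul (z : Fin r → A) (n : ℤ) (u : Fin r → ℤ) : chr z (n • u) = chr z u ^ n := by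
  unfold chr
  rw [← Finset.prod_zpow]
  exact Finset.prod_congr rfl fun j _ => by
    rw [Pi.smul_apply, smul_eq_mul, mul_comm, zpow_mul]

theorem chr_single (z : Fin r → A) (j : Fin r) : chr z (Pi.single j 1) = z j := by
  unfold chr
  rw [Finset.prod_eq_single j]
  · simp
  · intro i _ hi
    rw [Pi.single_eq_of_ne hi, zpow_zero]
  · intro h
    exact absurd (mem_univ j) h

/-- `ζ` are the coordinates of the character `z` in the simplex with the vertices `m i` -/
def IsLift (m : Matrix (Fin r) (Fin r) ℤ) (z ζ : Fin r → A) : Prop :=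
  ∀ j, ∏ i, ζ i ^ m i j = z j

theorem chr_eq {m : Matrix (Fin r) (Fin r) ℤ} {z ζ : Fin r → A} (h : IsLift m z ζ)
    (u : Fin r → ℤ) : chr z u = ∏ i, ζ i ^ (u ⬝ᵥ m i) := by
  unfold chr
  have h1 : ∀ j, z j ^ u j = ∏ i, ζ i ^ (u j * m i j) := by
    intro j
    rw [← h j, ← Finset.prod_zpow]
    refine Finset.prod_congr rfl fun i _ => ?_
    rw [← zpow_mul, mul_comm]
  simp only [h1]
  rw [Finset.prod_comm]
  refine Finset.prod_congr rfl fun i _ => ?_
  rw [prod_zpow_sum]
  rfl

end group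

/-- `u` is not divisible by an integer other than `±1` -/
def Primitive {r : ℕ} (u : Fin r → ℤ) : Prop := ∀ (n : ℤ) (v : Fin r → ℤ), u = n • v → IsUnit n

/-- vectors which are orthogonal to the rows of a nonsingular matrix vanish -/
theorem eq_zero_of_dot {r : ℕ} {m : Matrix (Fin r) (Fin r) ℤ} (hdet : m.det ≠ 0)
    {v : Fin r → ℤ} (h : ∀ i, v ⬝ᵥ m i = 0) : v = 0 := by
  apply Matrix.eq_zero_of_mulVec_eq_zero hdet
  funext i
  rw [Matrix.mulVec, dotProduct_comm]
  exact h i

/-- the integral vectors orthogonal to all vertices but one are multiples of the primitive one -/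
theorem exists_smul {r : ℕ} {m : Matrix (Fin r) (Fin r) ℤ} (hdet : m.det ≠ 0) {i : Fin r}
    {u v : Fin r → ℤ} (hp : Primitive u) (hu : ∀ j, j ≠ i → u ⬝ᵥ m j = 0)
    (hv : ∀ j, j ≠ i → v ⬝ᵥ m j = 0) : ∃ n : ℤ, v = n • u := by
  have hu0 : u ≠ 0 := by
    rintro rfl
    have := hp 0 0 (by simp)
    simp at this
  set e := u ⬝ᵥ m i with he
  set a := v ⬝ᵥ m i with ha
  have he0 : e ≠ 0 := by
    intro h0
    apply hu0
    apply eq_zero_of_dot hdet
    intro j
    by_cases hj : j = i
    · rw [hj]; exact h0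
    · exact hu j hj
  have h1 : e • v = a • u := by
    have h2 : e • v - a • u = 0 := by
      apply eq_zero_of_dot hdet
      intro j
      rw [sub_dotProduct, smul_dotProduct, smul_dotProduct]
      by_cases hj : j = i
      · rw [hj, ← he, ← ha, smul_eq_mul, smul_eq_mul, mul_comm, sub_self]
      · rw [hu j hj, hv j hj, smul_zero, smul_zero, sub_self]
    exact sub_eq_zero.1 h2
  obtain ⟨g, e', a', hg, hco, hge, hga⟩ : ∃ g e' a' : ℤ, g ≠ 0 ∧ IsCoprime e' a' ∧
      e = g * e' ∧ a = g * a' := by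
    have hg : (Int.gcd e a : ℤ) ≠ 0 := by
      intro h0
      exact he0 ((Int.gcd_eq_zero_iff.1 (by exact_mod_cast h0)).1)
    refine ⟨Int.gcd e a, e / Int.gcd e a, a / Int.gcd e a, hg, ?_, ?_, ?_⟩
    · rw [Int.isCoprime_iff_gcd_eq_one]
      exact Int.gcd_div_gcd_div_gcd (Nat.pos_of_ne_zero (by exact_mod_cast hg))
    · exact (Int.mul_ediv_cancel' (Int.gcd_dvd_left _ _)).symm
    · exact (Int.mul_ediv_cancel' (Int.gcd_dvd_right _ _)).symm
  have h2 : e' • v = a' • u := by
    rw [hge, hga, mul_smul, mul_smul] at h1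
    exact smul_right_injective _ hg h1
  have h3 : ∀ j, e' ∣ u j := by
    intro j
    have h4 := congrFun h2 j
    simp only [Pi.smul_apply, smul_eq_mul] at h4
    exact hco.dvd_of_dvd_mul_left (Dvd.intro _ h4)
  choose u' hu' using h3
  have h4 : IsUnit e' := hp e' u' (by
    funext j
    rw [Pi.smul_apply, smul_eq_mul]
    exact hu' j)
  rcases Int.isUnit_iff.1 h4 with h5 | h5
  · exact ⟨a', by rw [← h2, h5, one_smul]⟩
  · refine ⟨-a', ?_⟩
    rw [neg_smul, ← h2, h5, neg_smul, one_smul, neg_neg]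

/-- existence of a lift with a trivial coordinate -/
theorem exists_lift {k : Type} [Field k] [IsAlgClosed k] [CharZero k] {r : ℕ}
    {m : Matrix (Fin r) (Fin r) ℤ} (hdet : m.det ≠ 0) {i : Fin r} {u : Fin r → ℤ}
    (hp : Primitive u) (hu : ∀ j, j ≠ i → u ⬝ᵥ m j = 0) (z : Fin r → kˣ) (hz : chr z u = 1) :
    ∃ ζ : Fin r → kˣ, IsLift m z ζ ∧ ζ i = 1 := by
  classical
  -- the group of units is divisible
  have hroot : ∀ {n : ℤ}, n ≠ 0 → Function.Surjective (fun a : Additive kˣ => n • a) := by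
    intro n hn a
    have key : ∀ (n : ℕ), n ≠ 0 → ∀ a : kˣ, ∃ b : kˣ, b ^ n = a := by
      intro n hn a
      obtain ⟨b, hb⟩ := IsAlgClosed.exists_pow_nat_eq (a : k) (Nat.pos_of_ne_zero hn)
      have hb0 : b ≠ 0 := by
        rintro rfl
        rw [zero_pow hn] at hb
        exact a.ne_zero hb.symm
      exact ⟨Units.mk0 b hb0, by ext; simpa using hb⟩
    rcases Int.natAbs_eq n with h | h
    · obtain ⟨b, hb⟩ := key n.natAbs (Int.natAbs_ne_zero.2 hn) a.toMul
      refine ⟨Additive.ofMul b, ?_⟩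
      show n • Additive.ofMul b = a
      rw [h, natCast_zsmul, ← ofMul_pow, hb]
      rfl
    · obtain ⟨b, hb⟩ := key n.natAbs (Int.natAbs_ne_zero.2 hn) a.toMul
      refine ⟨Additive.ofMul b⁻¹, ?_⟩
      show n • Additive.ofMul b⁻¹ = a
      rw [h, neg_smul, natCast_zsmul, ← ofMul_pow, inv_pow, hb, ofMul_inv, neg_neg]
      rfl
  let _ : DivisibleBy (Additive kˣ) ℤ := divisibleByOfSMulRightSurj _ _ hroot
  have hB : Module.Baer ℤ (Additive kˣ) := Module.Baer.of_divisible _
  let π : (Fin r → ℤ) →ₗ[ℤ] ({j : Fin r // j ≠ i} → ℤ) :=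
    { toFun := fun v j => v ⬝ᵥ m j.1
      map_add' := fun v v' => by funext j; simp [add_dotProduct]
      map_smul' := fun c v => by funext j; exact smul_dotProduct c v (m j.1) }
  let g : (Fin r → ℤ) →ₗ[ℤ] Additive kˣ :=
    { toFun := fun v => Additive.ofMul (chr z v)
      map_add' := fun v v' => by rw [chr_add, ofMul_mul]
      map_smul' := fun c v => by rw [chr_smul, ofMul_zpow]; rfl }
  have hker : LinearMap.ker π ≤ LinearMap.ker g := by
    intro v hv
    have hv' : ∀ j, j ≠ i → v ⬝ᵥ m j = 0 := fun j hj => congrFun (LinearMap.mem_ker.1 hv) ⟨j, hj⟩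
    obtain ⟨n, rfl⟩ := exists_smul hdet hp hu hv'
    rw [LinearMap.mem_ker]
    show Additive.ofMul (chr z (n • u)) = 0
    rw [chr_smul, hz, one_zpow]
    rfl
  obtain ⟨h, hh⟩ := hB.extension_property ((LinearMap.ker π).liftQ π le_rfl)
    (LinearMap.ker_eq_bot.1 (Submodule.ker_liftQ_eq_bot _ _ _ le_rfl))
    ((LinearMap.ker π).liftQ g hker)
  have hh' : ∀ v, h (π v) = g v := by
    intro v
    have := LinearMap.congr_fun hh (Submodule.Quotient.mk v)
    simpa using this
  refine ⟨fun j => if hj : j ≠ i then (h (Pi.single ⟨j, hj⟩ 1)).toMul else 1, ?_, by simp⟩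
  intro j'
  have h1 := hh' (Pi.single j' 1)
  have h2 : g (Pi.single j' 1) = Additive.ofMul (z j') := by
    show Additive.ofMul (chr z (Pi.single j' 1)) = _
    rw [chr_single]
  have h3 : π (Pi.single j' 1) = ∑ j : {j : Fin r // j ≠ i}, m j.1 j' • (Pi.single j 1 : _ → ℤ) := by
    funext j
    show (Pi.single j' 1 : Fin r → ℤ) ⬝ᵥ m j.1 = _
    rw [single_dotProduct, one_mul, Finset.sum_apply, Finset.sum_eq_single j]
    · simp
    · intro b _ hb
      rw [Pi.smul_apply, Pi.single_eq_of_ne (Ne.symm hb), smul_zero]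
    · intro hb
      exact absurd (mem_univ j) hb
  rw [h2, h3, map_sum] at h1
  have h4 : z j' = ∏ j : {j : Fin r // j ≠ i}, (h (Pi.single j 1)).toMul ^ m j.1 j' := by
    have h5 := congrArg Additive.toMul h1
    rw [toMul_sum] at h5
    rw [← toMul_ofMul (z j'), ← h5]
    refine Finset.prod_congr rfl fun j _ => ?_
    rw [map_smul, toMul_zsmul]
  rw [h4]
  rw [Fintype.prod_eq_mul_prod_subtype_ne _ i]
  simp only [ne_eq, not_true_eq_false, dite_false, one_zpow, one_mul]
  refine Finset.prod_congr rfl fun j _ => ?_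
  rw [dif_pos j.2]

end Pool.Agent.Q2.TF
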