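import Pool.Agent.Q2.TF.Tri
import Pool.Agent.Q2.TF.Cnt

/-!
# Toric formats: the inequality at one element of the group
-/

set_option autoImplicit false

namespace Pool.Agent.Q2.TF

open Finset MvPolynomial Pool.Agent.Q35.PX
open scoped Matrix

open Classical in
theorem pointwise {k : Type} [Field k] [IsAlgClosed k] [CharZero k] (hDim : S_Dim) {N s p r : ℕ}
    {w : Fin N → ℕ} (hw : ∀ i, 0 < w i) {u : Fin s → Fin r → ℤ} {c : Fin r → ℤ} {ν : ℕ}
    (Tr : Bal u c ν) (lam : Fin r → ℤ)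
    (d : Fin s → ℕ) (hd : ∀ l, (d l : ℤ) = u l ⬝ᵥ lam) (hd0 : ∀ l, 0 < d l)
    (δ : Fin p → ℕ) (hδ : ∀ j, 0 < δ j)
    (f : Fin s → MvPolynomial (Fin N) k) (g : Fin p → MvPolynomial (Fin N) k)
    (hf : ∀ l, IsWeightedHomogeneous w (f l) (d l))
    (hg : ∀ j, IsWeightedHomogeneous w (g j) (δ j))
    (T : Finset (Fin N)) (z : Fin r → kˣ) (A : Finset (Fin s))
    (hAz : ∀ l, l ∈ A ↔ chr z (u l) = 1) (B : Finset (Fin p))
    (hA : ∀ l, l ∉ A → ∀ p : Fin N → k, (∀ i, i ∉ T → p i = 0) → eval p (f l) = 0)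
    (hB : ∀ j, j ∉ B → ∀ p : Fin N → k, (∀ i, i ∉ T → p i = 0) → eval p (g j) = 0)
    (hT : ∀ p : Fin N → k, (∀ i, i ∉ T → p i = 0) →
      (∀ a b : Fin s → ℕ, ∑ l, a l • u l = ∑ l, b l • u l →
        ∏ l, eval p (f l) ^ a l = ∏ l, eval p (f l) ^ b l) →
      (∀ j, eval p (g j) = 0) → p = 0) :
    (T.card : ℚ) ≤ ∑ l ∈ A, (1 - Tr.q l) + B.card := by
  have h1 : ∀ a, (T.card : ℚ) + ∑ i ∈ univ.filter (fun i => (a, i) ∈ Tr.bd),
      (if Tr.gen (a, i) ∈ A then 1 / (Tr.ht (a, i) : ℚ) * 1 else 0) ≤ A.card + B.card := by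
    intro a
    obtain ⟨I, hIS, hle, hI⟩ := exists_face (Tr.det_ne a) z
      (univ.filter fun i => (a, i) ∈ Tr.bd) (fun i => u (Tr.gen (a, i)))
      (fun i hi => Tr.primitive (a, i) (Finset.mem_filter.1 hi).2)
      (fun i hi => Tr.boundary (a, i) (Finset.mem_filter.1 hi).2)
      (fun i hi => Tr.gen_pos (Finset.mem_filter.1 hi).2)
    have h2 := count hDim hw lam d hd hd0 δ hδ f g hf hg T A B hA hB hT (Tr.m a)
      (fun i l => Tr.nonneg a i l) I (fun i => Tr.gen (a, i))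
      (fun i hi => Tr.boundary (a, i) (Finset.mem_filter.1 (hIS hi)).2)
      (fun i hi => Tr.gen_pos (Finset.mem_filter.1 (hIS hi)).2)
      (fun l hl => (hAz l).2 (hI (u l) hl))
    have h3 : (T.card : ℚ) + I.card ≤ A.card + B.card := by exact_mod_cast h2
    refine le_trans (add_le_add_right ?_ _) h3
    refine le_trans (le_of_eq ?_) hle
    refine Finset.sum_congr rfl fun i _ => ?_
    simp only [mul_one, hAz]
    rfl
  have h2 : ∑ a, ((|(Tr.m a).det| : ℤ) : ℚ) / Tr.vol * ((T.card : ℚ) +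
      ∑ i ∈ univ.filter (fun i => (a, i) ∈ Tr.bd),
        (if Tr.gen (a, i) ∈ A then 1 / (Tr.ht (a, i) : ℚ) * 1 else 0))
      ≤ ∑ a, ((|(Tr.m a).det| : ℤ) : ℚ) / Tr.vol * (A.card + B.card) := by
    refine Finset.sum_le_sum fun a _ => mul_le_mul_of_nonneg_left (h1 a) ?_
    refine div_nonneg ?_ Tr.vol_pos.le
    exact_mod_cast abs_nonneg _
  simp only [mul_add, Finset.sum_add_distrib, ← Finset.sum_mul, Tr.sum_vol, one_mul] at h2
  have h3 := Tr.sum_q A (fun _ => 1)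
  rw [← h3] at h2
  simp only [mul_one] at h2
  rw [Finset.sum_sub_distrib, Finset.sum_const, nsmul_eq_mul, mul_one]
  linarith

end Pool.Agent.Q2.TF
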