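import Pool.Agent.Q2.TF.Ave

/-!
# Toric formats: balanced families of simplices
-/

set_option autoImplicit false

namespace Pool.Agent.Q2.TF

open Finset
open scoped Matrix

section cof

variable {r : ℕ} (M : Matrix (Fin r) (Fin r) ℤ)

/-- the cofactor vector of the row `i`, positive on this row -/
def cof (i : Fin r) : Fin r → ℤ := fun j => M.det.sign * M.adjugate j i

theorem cof_dot (i : Fin r) (y : Fin r → ℤ) :
    cof M i ⬝ᵥ y = M.det.sign * (M.updateRow i y).det := by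
  have h1 : (M.updateRow i y).det = ∑ j, M.adjugate j i * y j := by
    have h2 := Matrix.cramer_transpose_apply M y i
    rw [← h2, Matrix.cramer_eq_adjugate_mulVec, ← Matrix.adjugate_transpose]
    rfl
  rw [h1, dotProduct, Finset.mul_sum]
  exact Finset.sum_congr rfl fun j _ => by rw [cof, mul_assoc]

theorem cof_self (i : Fin r) : cof M i ⬝ᵥ M i = |M.det| := by
  rw [cof_dot, Matrix.updateRow_eq_self, Int.sign_mul_self_eq_abs]

theorem cof_ne {i j : Fin r} (hj : j ≠ i) : cof M i ⬝ᵥ M j = 0 := by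
  have h0 : (M.updateRow i (M j)).det = 0 := by
    refine Matrix.det_zero_of_row_eq hj.symm ?_
    rw [Matrix.updateRow_self, Matrix.updateRow_ne hj]
  rw [cof_dot, h0, mul_zero]

variable {M}

theorem ext_dot (hM : M.det ≠ 0) {v w : Fin r → ℤ} (h : ∀ i, v ⬝ᵥ M i = w ⬝ᵥ M i) : v = w := by
  have h1 : v - w = 0 := by
    apply eq_zero_of_dot hM
    intro i
    rw [sub_dotProduct, h i, sub_self]
  exact sub_eq_zero.1 h1

theorem sum_cof (hM : M.det ≠ 0) {c : Fin r → ℤ} {ν : ℕ} (hc : ∀ i, c ⬝ᵥ M i = ν) :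
    (ν : ℤ) • ∑ i, cof M i = |M.det| • c := by
  apply ext_dot hM
  intro j
  rw [smul_dotProduct, smul_dotProduct, hc, sum_dotProduct, Finset.sum_eq_single j]
  · rw [cof_self, smul_eq_mul, smul_eq_mul, mul_comm]
  · intro i _ hi
    exact cof_ne M hi.symm
  · intro h
    exact absurd (mem_univ j) h

end cof

/-- A family of simplices (for example a triangulation of a polytope) such that the cofactor vectors
of the facets outside the boundary cancel. -/
structure Bal {s r : ℕ} (u : Fin s → Fin r → ℤ) (c : Fin r → ℤ) (ν : ℕ) where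
  τ : Type
  fin : Fintype τ
  ne : Nonempty τ
  m : τ → Matrix (Fin r) (Fin r) ℤ
  det_ne : ∀ a, (m a).det ≠ 0
  nonneg : ∀ a i l, 0 ≤ u l ⬝ᵥ m a i
  bd : Finset (τ × Fin r)
  gen : τ × Fin r → Fin s
  primitive : ∀ x ∈ bd, Primitive (u (gen x))
  boundary : ∀ x ∈ bd, ∀ j, j ≠ x.2 → u (gen x) ⬝ᵥ m x.1 j = 0
  balance : (ν : ℤ) • ∑ x ∈ bd, cof (m x.1) x.2 = (∑ a, |(m a).det|) • c

attribute [instance] Bal.fin Bal.ne

namespace Bal

variable {s r : ℕ} {u : Fin s → Fin r → ℤ} {c : Fin r → ℤ} {ν : ℕ} (T : Bal u c ν)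

theorem gen_pos {x : T.τ × Fin r} (hx : x ∈ T.bd) : 0 < u (T.gen x) ⬝ᵥ T.m x.1 x.2 := by
  rcases (T.nonneg x.1 x.2 (T.gen x)).lt_or_eq with h | h
  · exact h
  · exfalso
    have h0 : u (T.gen x) = 0 := by
      apply eq_zero_of_dot (T.det_ne x.1)
      intro i
      by_cases hi : i = x.2
      · rw [hi]; exact h.symm
      · exact T.boundary x hx i hi
    have := T.primitive x hx 0 0 (by rw [h0]; simp)
    simp at this

theorem cof_boundary {x : T.τ × Fin r} (hx : x ∈ T.bd) :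
    (u (T.gen x) ⬝ᵥ T.m x.1 x.2) • cof (T.m x.1) x.2 = |(T.m x.1).det| • u (T.gen x) := by
  apply ext_dot (T.det_ne x.1)
  intro j
  rw [smul_dotProduct, smul_dotProduct, smul_eq_mul, smul_eq_mul]
  by_cases hj : j = x.2
  · rw [hj, cof_self, mul_comm]
  · rw [cof_ne _ hj, T.boundary x hx j hj, mul_zero, mul_zero]

/-- the sum of the volumes -/
def vol : ℚ := ∑ a, (|(T.m a).det| : ℤ)

theorem vol_pos : 0 < T.vol := by
  refine Finset.sum_pos (fun a _ => ?_) univ_nonempty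
  exact_mod_cast abs_pos.2 (T.det_ne a)

/-- the distance of a vertex from the opposite facet in the boundary -/
def ht (x : T.τ × Fin r) : ℤ := u (T.gen x) ⬝ᵥ T.m x.1 x.2

open Classical in
/-- the weight of the linear form `u l` -/
noncomputable def q (l : Fin s) : ℚ := ∑ a, (|(T.m a).det| : ℤ) / T.vol *
  ∑ i, if (a, i) ∈ T.bd ∧ T.gen (a, i) = l then 1 / (T.ht (a, i) : ℚ) else 0

theorem q_nonneg (l : Fin s) : 0 ≤ T.q l := by
  refine Finset.sum_nonneg fun a _ => mul_nonneg (div_nonneg ?_ T.vol_pos.le) ?_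
  · exact_mod_cast abs_nonneg _
  · refine Finset.sum_nonneg fun i _ => ?_
    split_ifs with h
    · have := T.gen_pos h.1
      refine div_nonneg zero_le_one ?_
      exact_mod_cast this.le
    · exact le_rfl

theorem sum_vol : ∑ a, ((|(T.m a).det| : ℤ) : ℚ) / T.vol = 1 := by
  rw [← Finset.sum_div]
  exact div_self T.vol_pos.ne'

theorem q_le_one (l : Fin s) : T.q l ≤ 1 := by
  classical
  rw [← T.sum_vol]
  refine Finset.sum_le_sum fun a _ => mul_le_of_le_one_right (div_nonneg ?_ T.vol_pos.le) ?_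
  · exact_mod_cast abs_nonneg _
  rw [← Finset.sum_filter]
  have h1 : (univ.filter fun i => (a, i) ∈ T.bd ∧ T.gen (a, i) = l).card ≤ 1 := by
    rw [Finset.card_le_one]
    intro i hi j hj
    have hi' := (Finset.mem_filter.1 hi).2
    have hj' := (Finset.mem_filter.1 hj).2
    by_contra hne
    have h2 := T.boundary (a, i) hi'.1 j (Ne.symm hne)
    have h3 := T.gen_pos hj'.1
    rw [hj'.2] at h3
    rw [hi'.2] at h2
    exact h3.ne' h2
  refine le_trans (Finset.sum_le_card_nsmul _ _ 1 ?_) ?_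
  · intro i hi
    have h2 := T.gen_pos (Finset.mem_filter.1 hi).2.1
    have h3 : (1 : ℚ) ≤ (T.ht (a, i) : ℚ) := by
      have h4 : (1 : ℤ) ≤ T.ht (a, i) := h2
      exact_mod_cast h4
    rw [div_le_one (by linarith)]
    exact h3
  · rw [nsmul_eq_mul, mul_one]
    exact_mod_cast h1

open Classical in
theorem sum_q (A : Finset (Fin s)) (φ : Fin s → ℚ) : ∑ l ∈ A, T.q l * φ l
    = ∑ a, (|(T.m a).det| : ℤ) / T.vol *
      ∑ i ∈ univ.filter (fun i => (a, i) ∈ T.bd),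
        if T.gen (a, i) ∈ A then 1 / (T.ht (a, i) : ℚ) * φ (T.gen (a, i)) else 0 := by
  unfold q
  simp only [Finset.sum_mul]
  rw [Finset.sum_comm]
  refine Finset.sum_congr rfl fun a _ => ?_
  simp only [mul_assoc]
  rw [← Finset.mul_sum]
  congr 1
  simp only [Finset.sum_mul]
  rw [Finset.sum_comm, Finset.sum_filter]
  refine Finset.sum_congr rfl fun i _ => ?_
  by_cases h : (a, i) ∈ T.bd
  · rw [if_pos h]
    simp only [h, true_and, ite_mul, zero_mul]
    rw [Finset.sum_ite_eq]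
  · rw [if_neg h]
    refine Finset.sum_eq_zero fun l _ => ?_
    rw [if_neg (fun h' => h h'.1), zero_mul]

/-- **The balancing identity.** -/
theorem sum_q_dot (lam : Fin r → ℤ) :
    (ν : ℚ) * ∑ l, T.q l * ((u l ⬝ᵥ lam : ℤ) : ℚ) = ((c ⬝ᵥ lam : ℤ) : ℚ) := by
  classical
  rw [T.sum_q univ]
  have h1 : ∀ a i, (a, i) ∈ T.bd → ((|(T.m a).det| : ℤ) : ℚ) *
      (1 / (T.ht (a, i) : ℚ) * ((u (T.gen (a, i)) ⬝ᵥ lam : ℤ) : ℚ))
      = ((cof (T.m a) i ⬝ᵥ lam : ℤ) : ℚ) := by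
    intro a i hx
    have h2 := congrArg (fun v => v ⬝ᵥ lam) (T.cof_boundary hx)
    simp only [smul_dotProduct, smul_eq_mul] at h2
    have h3 : (T.ht (a, i) : ℚ) ≠ 0 := by
      have := T.gen_pos hx
      exact_mod_cast this.ne'
    have h4 : (T.ht (a, i) : ℚ) * ((cof (T.m a) i ⬝ᵥ lam : ℤ) : ℚ)
        = ((|(T.m a).det| : ℤ) : ℚ) * ((u (T.gen (a, i)) ⬝ᵥ lam : ℤ) : ℚ) := by
      exact_mod_cast h2
    field_simp
    linarith
  have h5 : ∑ a, ((|(T.m a).det| : ℤ) : ℚ) / T.vol *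
      ∑ i ∈ univ.filter (fun i => (a, i) ∈ T.bd),
        (if T.gen (a, i) ∈ (univ : Finset (Fin s)) then
          1 / (T.ht (a, i) : ℚ) * ((u (T.gen (a, i)) ⬝ᵥ lam : ℤ) : ℚ) else 0)
      = (∑ x ∈ T.bd, ((cof (T.m x.1) x.2 ⬝ᵥ lam : ℤ) : ℚ)) / T.vol := by
    have h6 : ∑ x ∈ T.bd, ((cof (T.m x.1) x.2 ⬝ᵥ lam : ℤ) : ℚ)
        = ∑ x, if x ∈ T.bd then ((cof (T.m x.1) x.2 ⬝ᵥ lam : ℤ) : ℚ) else 0 := by
      rw [← Finset.sum_filter]
      congr 1
      ext x
      simp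
    rw [h6, Fintype.sum_prod_type, Finset.sum_div]
    refine Finset.sum_congr rfl fun a _ => ?_
    rw [div_mul_eq_mul_div, Finset.mul_sum, Finset.sum_filter]
    congr 1
    refine Finset.sum_congr rfl fun i _ => ?_
    by_cases h : (a, i) ∈ T.bd
    · rw [if_pos h, if_pos h, if_pos (mem_univ _)]
      exact h1 a i h
    · rw [if_neg h, if_neg h]
  rw [h5]
  have h6 := congrArg (fun v => v ⬝ᵥ lam) T.balance
  simp only [smul_dotProduct, sum_dotProduct, smul_eq_mul] at h6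
  have h7 : (ν : ℚ) * ∑ x ∈ T.bd, ((cof (T.m x.1) x.2 ⬝ᵥ lam : ℤ) : ℚ)
      = T.vol * ((c ⬝ᵥ lam : ℤ) : ℚ) := by
    unfold vol
    exact_mod_cast h6
  rw [← mul_div_assoc, h7, mul_div_cancel_left₀ _ T.vol_pos.ne']

end Bal

end Pool.Agent.Q2.TF
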